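import Pool.Agent.Run7.h972.Main
import Pool.Agent.TH669.KS.Num
import Pool.Agent.R546.EV.HamCone

set_option autoImplicit false

/-!
# Between pancyclic and 1-tough every property is evasive, all numbers of vertices
-/

namespace Run7.h972.Ham

open SimpleGraph
open Pool.Agent.H119R2.Kp (GP PV)
open Pool.Agent.R546.EV (HasW KC)
open Pool.Agent.TH669.KC (HCR CR Con con_of_connected)
open Pool.Agent.TH669.KS (HasC)
open Pool.Agent.W332.Kc (coneO)

theorem OneTough.connected {V : Type} [Finite V] {G : SimpleGraph V} (h : OneTough G) (X : Finset V)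
    (hX : X.card ≤ 1) (hne : ∃ v, v ∉ X) : (G.induce {v | v ∉ X}).Connected := by
  set G' := G.induce {v | v ∉ X} with hG'
  obtain ⟨v, hv⟩ := hne
  have hne' : Nonempty {v | v ∉ X} := ⟨⟨v, hv⟩⟩
  have : Finite G'.ConnectedComponent := Quot.finite _
  have h1 : Nat.card G'.ConnectedComponent ≤ 1 := by
    by_contra hcon
    have h2 : Nat.card G'.ConnectedComponent ≤ X.card := h X (not_le.1 hcon)
    omega
  have h2 : Subsingleton G'.ConnectedComponent := Finite.card_le_one_iff_subsingleton.1 h1
  rw [SimpleGraph.connected_iff]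
  refine ⟨?_, hne'⟩
  intro x y
  rw [← SimpleGraph.ConnectedComponent.eq]
  exact Subsingleton.elim _ _

/-- a spanning wheel gives cycles of all lengths -/
theorem cyc_of_wheel {m : ℕ} {G : SimpleGraph (Fin (m + 1))} (h : HasW m G)
    (t : ℕ) (ht3 : 3 ≤ t) (htn : t ≤ m + 1) : (cycleGraph t).IsContained G := by
  obtain ⟨f, hf, hadj⟩ := h
  have hub : ∀ i, G.Adj (f none) (f (some i)) := fun i =>
    hadj _ _ ⟨fun h => (by cases h), fun x y hx => (by cases hx)⟩
  have rim : ∀ i j, (cycleGraph m).Adj i j → G.Adj (f (some i)) (f (some j)) := by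
    intro i j hij
    refine hadj _ _ ⟨fun h => hij.ne (Option.some_injective _ h), fun x y hx hy => ?_⟩
    cases hx
    cases hy
    exact hij
  have h0 : 0 < m := by omega
  set g : ℕ → Fin (m + 1) := fun i => if i = 0 then f none else
    f (some ⟨(i - 1) % m, Nat.mod_lt _ h0⟩) with hg
  refine cyc_of_fun G t (by omega) g ?_ ?_ ?_
  · intro i j hi hj hij
    rw [hg] at hij
    simp only at hij
    split_ifs at hij with h1 h2 h2
    · omega
    · have := hf hij
      simp at this
    · have := hf hij
      simp at this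
    · have h3 := hf hij
      simp only [Option.some.injEq, Fin.mk.injEq] at h3
      rw [Nat.mod_eq_of_lt (by omega), Nat.mod_eq_of_lt (by omega)] at h3
      omega
  · intro i hi
    rw [hg]
    simp only [Nat.succ_ne_zero, if_false, Nat.add_sub_cancel]
    by_cases h1 : i = 0
    · rw [if_pos h1]
      exact hub _
    · rw [if_neg h1]
      refine rim _ _ ?_
      rw [cycleGraph_adj']
      right
      have e1 : (i - 1) % m = i - 1 := Nat.mod_eq_of_lt (by omega)
      have e2 : i % m = i := Nat.mod_eq_of_lt (by omega)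
      rw [Fin.sub_val_of_le]
      · simp only [e1, e2]
        omega
      · rw [Fin.le_def]
        simp only [e1, e2]
        omega
  · rw [hg]
    simp only [if_true]
    rw [if_neg (by omega)]
    exact (hub _).symm

theorem main {n : ℕ} (hn : 3 ≤ n) {Q : SimpleGraph (Fin n) → Prop}
    (hQ : GP n (n.choose 2 - 1) Q)
    (hlow : ∀ H : SimpleGraph (Fin n), (∀ t, 3 ≤ t → t ≤ n → (cycleGraph t).IsContained H) → Q H)
    (hup : ∀ H, Q H → OneTough H) : False := by
  rcases Nat.lt_or_ge n 14 with h14 | h14
  swap
  · exact main14 h14 hQ hlow hup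
  rcases Nat.lt_or_ge 3 n with h3 | h3
  · -- spanning wheels
    obtain ⟨m, rfl⟩ : ∃ m, n = m + 1 := ⟨n - 1, by omega⟩
    have hup' : ∀ G : SimpleGraph (Fin (m + 1)), Q G → KC 2 G := by
      intro G hG
      refine ⟨by rw [Fintype.card_fin]; omega, fun X hX => ?_⟩
      refine (hup G hG).connected X (by omega) ?_
      by_contra hcon
      push Not at hcon
      have h1 : (Finset.univ : Finset (Fin (m + 1))) ⊆ X := fun v _ => hcon v
      have h2 := Finset.card_le_card h1
      rw [Finset.card_univ, Fintype.card_fin] at h2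
      omega
    have hlow' : ∀ G : SimpleGraph (Fin (m + 1)), HasW m G → Q G := fun G hG =>
      hlow G fun t h1 h2 => cyc_of_wheel hG t h1 h2
    have hm : ∃ p a s : ℕ, p.Prime ∧ m = p ^ a * s ∧ Squarefree s ∧ ¬ p ∣ s := by
      have hm3 : 3 ≤ m := by omega
      have hm12 : m ≤ 12 := by omega
      clear hQ hup hup' hlow hlow'
      interval_cases m
      · exact ⟨2, 0, 3, by norm_num, by norm_num, Nat.prime_three.squarefree, by norm_num⟩
      · exact ⟨2, 2, 1, by norm_num, by norm_num, squarefree_one, by norm_num⟩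
      · exact ⟨2, 0, 5, by norm_num, by norm_num, (by norm_num : Nat.Prime 5).squarefree, by norm_num⟩
      · exact ⟨2, 1, 3, by norm_num, by norm_num, Nat.prime_three.squarefree, by norm_num⟩
      · exact ⟨2, 0, 7, by norm_num, by norm_num, (by norm_num : Nat.Prime 7).squarefree, by norm_num⟩
      · exact ⟨2, 3, 1, by norm_num, by norm_num, squarefree_one, by norm_num⟩
      · exact ⟨3, 2, 1, by norm_num, by norm_num, squarefree_one, by norm_num⟩
      · exact ⟨2, 1, 5, by norm_num, by norm_num, (by norm_num : Nat.Prime 5).squarefree, by norm_num⟩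
      · exact ⟨2, 0, 11, by norm_num, by norm_num, (by norm_num : Nat.Prime 11).squarefree, by norm_num⟩
      · exact ⟨2, 2, 3, by norm_num, by norm_num, Nat.prime_three.squarefree, by norm_num⟩
    obtain ⟨p, a, s, hp, hms, hs, hps⟩ := hm
    exact Pool.Agent.R546.EV.no_GP_ham' (by omega) p a s hp hms hs hps hQ hlow' hup'
  · -- three vertices
    obtain rfl : n = 3 := by omega
    have hlow' : ∀ H : SimpleGraph (Fin 3), HasC H 3 → Q H := by
      rintro H ⟨t, ht, ⟨c⟩⟩
      have h1 := Fintype.card_le_of_injective c c.injective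
      rw [Fintype.card_fin, Fintype.card_fin] at h1
      have h2 : t = 3 := by omega
      subst h2
      refine hlow H fun t' h3 h4 => ?_
      have h5 : t' = 3 := by omega
      rw [h5]
      exact ⟨c⟩
    have hup' : ∀ H, Q H → HCR 0 3 H := by
      intro H hH
      have h1 := (hup H hH).connected ∅ (by simp) ⟨0, by simp⟩
      refine ⟨Finset.univ, by simp, con_of_connected ?_, fun v _ => Nat.zero_le _⟩
      have h2 : {v : Fin 3 | v ∉ (∅ : Finset (Fin 3))} = ((Finset.univ : Finset (Fin 3)) : Set (Fin 3)) := by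
        ext v
        simp
      rw [← h2]
      exact h1.preconnected
    refine Pool.Agent.TH669.KS.single hQ hlow' hup' (by decide) le_rfl 3 1 1 (by norm_num)
      (by norm_num) squarefree_one (by norm_num) le_rfl ?_
    have h2 := (Nat.minFac_prime (n := 3) (by norm_num)).two_le
    omega

theorem OneTough.mono {V : Type} [Finite V] {G H : SimpleGraph V} (hGH : G ≤ H) (h : OneTough G) :
    OneTough H := by
  intro X hX
  set G' := G.induce {v | v ∉ X} with hG'
  set H' := H.induce {v | v ∉ X} with hH'
  have hle : G' ≤ H' := fun u v huv => hGH huv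
  have : Finite G'.ConnectedComponent := Quot.finite _
  have h1 : Nat.card H'.ConnectedComponent ≤ Nat.card G'.ConnectedComponent := by
    refine Nat.card_le_card_of_surjective
      (fun C => C.map (SimpleGraph.Hom.ofLE hle)) ?_
    intro C
    induction C using ConnectedComponent.ind with
    | _ v => exact ⟨G'.connectedComponentMk v, rfl⟩
  have hX' : 1 < Nat.card H'.ConnectedComponent := hX
  exact h1.trans (h X (lt_of_lt_of_le hX' h1))

theorem OneTough.map {V W : Type} [Finite V] {G : SimpleGraph V} (h : OneTough G) (e : V ≃ W) :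
    OneTough (G.map e.toEmbedding) := by
  intro X hX
  have hφ : ((G.induce {v | v ∉ X.map e.symm.toEmbedding}) ≃g
      ((G.map e.toEmbedding).induce {v | v ∉ X})) := by
    refine ⟨(Equiv.subtypeEquiv e ?_), ?_⟩
    · intro v
      simp only [Set.mem_ofPred_eq, Finset.mem_map_equiv, Equiv.symm_symm]
    · intro u v
      exact SimpleGraph.map_adj_apply (f := e.toEmbedding)
  have h1 := Nat.card_congr hφ.connectedComponentEquiv
  rw [← h1] at hX ⊢
  have h2 := h (X.map e.symm.toEmbedding) hX
  rwa [Finset.card_map] at h2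

theorem cyc_mono {V : Type} {G H : SimpleGraph V} (hGH : G ≤ H) {t : ℕ}
    (h : (cycleGraph t).IsContained G) : (cycleGraph t).IsContained H := by
  obtain ⟨c⟩ := h
  exact ⟨⟨⟨c, fun {u v} huv => hGH (c.toHom.map_adj huv)⟩, c.injective⟩⟩

theorem cyc_map {V W : Type} {G : SimpleGraph V} (e : V ≃ W) {t : ℕ}
    (h : (cycleGraph t).IsContained G) : (cycleGraph t).IsContained (G.map e.toEmbedding) := by
  obtain ⟨c⟩ := h
  refine ⟨⟨⟨fun i => e (c i), fun {u v} huv => ?_⟩, fun u v huv => c.injective (e.injective huv)⟩⟩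
  exact (SimpleGraph.map_adj_apply (f := e.toEmbedding)).2 (c.toHom.map_adj huv)

end Run7.h972.Ham
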