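import Mathlib

set_option autoImplicit false

/-!
# Toughness, Hamiltonian and pancyclic graphs
-/

namespace Run7.h972.Ham

open SimpleGraph

/-- `G` is 1-tough: if the deletion of a set `X` of vertices leaves more than one component, then it
leaves at most `|X|` components. -/
def OneTough {V : Type} (G : SimpleGraph V) : Prop :=
  ∀ X : Finset V, 1 < Nat.card (G.induce {v | v ∉ X}).ConnectedComponent →
    Nat.card (G.induce {v | v ∉ X}).ConnectedComponent ≤ X.card

/-- an obstruction to toughness -/
def Obs {V : Type} (G : SimpleGraph V) : Prop :=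
  ∃ (X : Finset V) (K : Type) (_ : Finite K) (f : V → K), (∀ k, ∃ v, v ∉ X ∧ f v = k) ∧
    (∀ u v, u ∉ X → v ∉ X → G.Adj u v → f u = f v) ∧ 1 < Nat.card K ∧ X.card < Nat.card K

theorem Obs.not_tough {V : Type} [Finite V] {G : SimpleGraph V} (h : Obs G) : ¬ OneTough G := by
  obtain ⟨X, K, hK, f, hsurj, hadj, h1, h2⟩ := h
  intro ht
  set G' := G.induce {v | v ∉ X} with hG'
  have hwalk : ∀ (u v : {v | v ∉ X}) (_ : G'.Walk u v), f u.1 = f v.1 := by
    intro u v p
    induction p with
    | nil => rfl
    | @cons u v w h _ ih => exact (hadj _ _ u.2 v.2 h).trans ih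
  let g : G'.ConnectedComponent → K :=
    ConnectedComponent.lift (fun v => f v.1) fun u v p _ => hwalk u v p
  have hg : Function.Surjective g := by
    intro k
    obtain ⟨v, hv, hk⟩ := hsurj k
    exact ⟨G'.connectedComponentMk ⟨v, hv⟩, hk⟩
  have : Finite G'.ConnectedComponent := Quot.finite _
  have h3 : Nat.card K ≤ Nat.card G'.ConnectedComponent := Nat.card_le_card_of_surjective g hg
  have h4 : Nat.card G'.ConnectedComponent ≤ X.card := ht X (lt_of_lt_of_le h1 h3)
  omega

theorem Obs.map {V W : Type} {G : SimpleGraph V} (h : Obs G) (e : V ≃ W) :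
    Obs (G.map e.toEmbedding) := by
  obtain ⟨X, K, hK, f, hsurj, hadj, h1, h2⟩ := h
  refine ⟨X.map e.toEmbedding, K, hK, f ∘ e.symm, ?_, ?_, h1, by rwa [Finset.card_map]⟩
  · intro k
    obtain ⟨v, hv, hk⟩ := hsurj k
    refine ⟨e v, ?_, by simpa using hk⟩
    rw [Finset.mem_map_equiv, Equiv.symm_apply_apply]
    exact hv
  · intro u v hu hv huv
    rw [Finset.mem_map_equiv] at hu hv
    refine hadj _ _ hu hv ?_
    obtain ⟨u, rfl⟩ := e.surjective u
    obtain ⟨v, rfl⟩ := e.surjective v
    rw [Equiv.symm_apply_apply, Equiv.symm_apply_apply]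
    exact (SimpleGraph.map_adj_apply (f := e.toEmbedding)).1 huv

/-- a graph on `n` vertices is Hamiltonian iff it contains a cycle of length `n` -/
theorem ham_iff {n : ℕ} (hn : 3 ≤ n) (G : SimpleGraph (Fin n)) :
    G.IsHamiltonian ↔ (cycleGraph n).IsContained G := by
  have h1 := cycleGraph_isContained_iff (G := G) (n := n) (by omega)
  constructor
  · intro h
    obtain ⟨v, p, hp⟩ := h (by rw [Fintype.card_fin]; omega)
    rw [Walk.isHamiltonianCycle_iff_isCycle_and_length_eq, Fintype.card_fin] at hp
    exact h1.2 ⟨v, p, hp⟩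
  · intro h _
    obtain ⟨v, p, hp⟩ := h1.1 h
    refine ⟨v, p, ?_⟩
    rw [Walk.isHamiltonianCycle_iff_isCycle_and_length_eq, Fintype.card_fin]
    exact hp

theorem closed_univ {m : ℕ} (S : Set (Fin (m + 1))) (hne : S.Nonempty)
    (h : ∀ i ∈ S, i + 1 ∈ S) : ∀ i, i ∈ S := by
  obtain ⟨i0, hi0⟩ := hne
  have h1 : ∀ k : Fin (m + 1), i0 + k ∈ S := by
    intro k
    induction k using Fin.induction with
    | zero => simpa using hi0
    | succ k ih =>
      have := h _ ih
      rwa [add_assoc, Fin.coeSucc_eq_succ] at this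
  intro i
  have h2 := h1 (i - i0)
  rwa [add_sub_cancel] at h2

/-- Hamiltonian graphs are 1-tough -/
theorem tough_of_cycle {n : ℕ} (hn : 3 ≤ n) (G : SimpleGraph (Fin n))
    (h : (cycleGraph n).IsContained G) : OneTough G := by
  classical
  intro X hX
  obtain ⟨m, rfl⟩ : ∃ m, n = m + 2 := ⟨n - 2, by omega⟩
  obtain ⟨c⟩ := h
  have hf : Function.Injective c := c.injective
  have hfs : Function.Surjective c := Finite.surjective_of_injective hf
  have hadj : ∀ i : Fin (m + 2), G.Adj (c i) (c (i + 1)) := by
    intro i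
    refine c.toHom.map_adj ?_
    rw [cycleGraph_adj]
    right
    rw [add_sub_cancel_left]
  set G' := G.induce {v | v ∉ X} with hG'
  have key : ∀ C : G'.ConnectedComponent, ∃ i : Fin (m + 2), (∃ h : c i ∉ X,
      G'.connectedComponentMk ⟨c i, h⟩ = C) ∧ c (i + 1) ∈ X := by
    intro C
    by_contra hcon
    push Not at hcon
    set S : Set (Fin (m + 2)) := {i | ∃ h : c i ∉ X, G'.connectedComponentMk ⟨c i, h⟩ = C} with hS
    have hall : ∀ i, i ∈ S := by
      refine closed_univ (m := m + 1) S ?_ ?_
      · induction C using ConnectedComponent.ind with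
        | _ v =>
        obtain ⟨i, hi⟩ := hfs v.1
        refine ⟨i, by rw [hi]; exact v.2, ?_⟩
        congr 1
        exact Subtype.ext hi
      · rintro i ⟨h1, h2⟩
        have h3 : c (i + 1) ∉ X := hcon i ⟨h1, h2⟩
        refine ⟨h3, ?_⟩
        rw [← h2, ConnectedComponent.eq]
        refine SimpleGraph.Adj.reachable ?_
        exact (hadj i).symm
    have hone : ∀ C' : G'.ConnectedComponent, C' = C := by
      intro C'
      induction C' using ConnectedComponent.ind with
      | _ v =>
      obtain ⟨i, hi⟩ := hfs v.1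
      obtain ⟨h1, h2⟩ := hall i
      rw [← h2]
      congr 1
      exact Subtype.ext hi.symm
    have : Nat.card G'.ConnectedComponent = 1 := by
      rw [Nat.card_eq_one_iff_unique]
      exact ⟨⟨fun a b => (hone a).trans (hone b).symm⟩, ⟨C⟩⟩
    omega
  choose i hi1 hi2 using key
  have hinj : Function.Injective (fun C : G'.ConnectedComponent => (⟨c (i C + 1), hi2 C⟩ : X)) := by
    intro C C' h
    have h1 : c (i C + 1) = c (i C' + 1) := congrArg Subtype.val h
    have h2 : i C = i C' := by
      have := hf h1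
      exact add_right_cancel this
    obtain ⟨h3, h4⟩ := hi1 C
    obtain ⟨h5, h6⟩ := hi1 C'
    rw [← h4, ← h6]
    congr 1
    apply Subtype.ext
    change c (i C) = c (i C')
    rw [h2]
  have := Nat.card_le_card_of_injective _ hinj
  rwa [Nat.card_eq_fintype_card (α := X), Fintype.card_coe] at this

end Run7.h972.Ham
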