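import Pool.Agent.Run7.h972.Win
import Pool.Agent.Run7.h972.Tough

set_option autoImplicit false
set_option linter.unusedSectionVars false

/-!
# The configurations which are not 1-tough
-/

namespace Run7.h972.Ham

open Pool.Agent.TH669.KC (Cl cls cls_zero cls_of_ne cls_ne_none cls_neg cls_inj cls_surj)
open Pool.Agent.TH669.KS (SS gn)

section

variable {A B : Type} [AddCommGroup A] [DecidableEq A] [AddCommGroup B] [DecidableEq B]
variable [Fintype A] [Fintype B]

theorem not_adj_01 {χ : JJ A B → Bool} {s : Bool} (h : χ (.inl (s, false)) = false) (x : A) :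
    ¬ (Gs χ).Adj (.inl s) (.inr (.inl x)) := by
  rw [adj_01, h]
  simp

theorem not_adj_02 {χ : JJ A B → Bool} {s : Bool} (h : χ (.inl (s, true)) = false) (x : B) :
    ¬ (Gs χ).Adj (.inl s) (.inr (.inr x)) := by
  rw [adj_02, h]
  simp

theorem not_adj_12 {χ : JJ A B → Bool} (h : χ (.inr (.inl ())) = false) (x : A) (y : B) :
    ¬ (Gs χ).Adj (.inr (.inl x)) (.inr (.inr y)) := by
  rw [adj_12, h]
  simp

/-- a function on the vertices is constant on the edges outside `X` if this holds for one order of
the types of the ends -/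
theorem const_of {χ : JJ A B → Bool} {X : Finset (VV A B)} {K : Type} {f : VV A B → K}
    (h00 : ∀ s t, .inl s ∉ X → .inl t ∉ X → s ≠ t → f (.inl s) = f (.inl t))
    (h01 : ∀ s x, .inl s ∉ X → .inr (.inl x) ∉ X → (Gs χ).Adj (.inl s) (.inr (.inl x)) →
      f (.inl s) = f (.inr (.inl x)))
    (h02 : ∀ s x, .inl s ∉ X → .inr (.inr x) ∉ X → (Gs χ).Adj (.inl s) (.inr (.inr x)) →
      f (.inl s) = f (.inr (.inr x)))
    (h11 : ∀ x y, (Gs χ).Adj (.inr (.inl x)) (.inr (.inl y)) →
      f (.inr (.inl x)) = f (.inr (.inl y)))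
    (h12 : ∀ x y, .inr (.inl x) ∉ X → .inr (.inr y) ∉ X →
      (Gs χ).Adj (.inr (.inl x)) (.inr (.inr y)) → f (.inr (.inl x)) = f (.inr (.inr y)))
    (h22 : ∀ x y, .inr (.inr x) ∉ X → .inr (.inr y) ∉ X →
      (Gs χ).Adj (.inr (.inr x)) (.inr (.inr y)) → f (.inr (.inr x)) = f (.inr (.inr y))) :
    ∀ u v, u ∉ X → v ∉ X → (Gs χ).Adj u v → f u = f v := by
  intro u v hu hv huv
  rcases u with s | x | x <;> rcases v with t | y | y
  · exact h00 s t hu hv ((adj_00 χ s t).1 huv)
  · exact h01 s y hu hv huv
  · exact h02 s y hu hv huv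
  · exact (h01 t x hv hu huv.symm).symm
  · exact h11 x y huv
  · exact h12 x y hu hv huv
  · exact (h02 t x hv hu huv.symm).symm
  · exact (h12 y x hv hu huv.symm).symm
  · exact h22 x y hu hv huv

/-- the coset of a vertex in the first block -/
theorem coset_eq {χ : JJ A B → Bool} {x y : A} (h : (Gs χ).Adj (.inr (.inl x)) (.inr (.inl y))) :
    (QuotientAddGroup.mk x : A ⧸ gn (k1 χ)) = QuotientAddGroup.mk y := by
  rw [QuotientAddGroup.eq]
  rw [adj_11] at h
  have h1 : x - y ∈ gn (k1 χ) := AddSubgroup.subset_closure h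
  have h2 : -x + y = -(x - y) := by abel
  rw [h2]
  exact neg_mem h1

theorem coset_eq2 {χ : JJ A B → Bool} {x y : B} (h : (Gs χ).Adj (.inr (.inr x)) (.inr (.inr y))) :
    (QuotientAddGroup.mk x : B ⧸ gn (k2 χ)) = QuotientAddGroup.mk y := by
  rw [QuotientAddGroup.eq]
  rw [adj_22] at h
  have h1 : x - y ∈ gn (k2 χ) := AddSubgroup.subset_closure h
  have h2 : -x + y = -(x - y) := by abel
  rw [h2]
  exact neg_mem h1

theorem two_le_quot {G : Type} [AddCommGroup G] [Finite G] {H : AddSubgroup G} (h : H ≠ ⊤) :
    2 ≤ Nat.card (G ⧸ H) := by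
  have h1 : H.index ≠ 1 := fun h' => h (AddSubgroup.index_eq_one.1 h')
  have h2 : H.index ≠ 0 := AddSubgroup.index_ne_zero_of_finite
  change 2 ≤ H.index
  omega

/-- a fixed point not joined to the first block, no edges between the blocks -/
theorem lose1 (χ : JJ A B → Bool) (hj : χ (.inr (.inl ())) = false) (s : Bool)
    (h : χ (.inl (s, false)) = false) : Obs (Gs χ) := by
  refine ⟨{.inl (!s)}, Bool, inferInstance, fun z => match z with
    | .inl _ => false
    | .inr (.inl _) => true
    | .inr (.inr _) => false, ?_, ?_, by simp, by simp⟩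
  · intro k
    cases k
    · exact ⟨.inl s, by simp, rfl⟩
    · exact ⟨.inr (.inl 0), by simp, rfl⟩
  · refine const_of (fun _ _ _ _ _ => rfl) ?_ (fun _ _ _ _ _ => rfl) (fun _ _ _ => rfl) ?_
      (fun _ _ _ _ _ => rfl)
    · intro s' x hs _ hadj
      have h1 : s' = s := by
        rw [Finset.mem_singleton] at hs
        cases s <;> cases s' <;> simp_all
      subst h1
      exact absurd hadj (not_adj_01 h x)
    · intro x y _ _ hadj
      exact absurd hadj (not_adj_12 hj x y)

/-- a fixed point not joined to the second block, no edges between the blocks -/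
theorem lose2 (χ : JJ A B → Bool) (hj : χ (.inr (.inl ())) = false) (s : Bool)
    (h : χ (.inl (s, true)) = false) : Obs (Gs χ) := by
  refine ⟨{.inl (!s)}, Bool, inferInstance, fun z => match z with
    | .inl _ => false
    | .inr (.inl _) => false
    | .inr (.inr _) => true, ?_, ?_, by simp, by simp⟩
  · intro k
    cases k
    · exact ⟨.inl s, by simp, rfl⟩
    · exact ⟨.inr (.inr 0), by simp, rfl⟩
  · refine const_of (fun _ _ _ _ _ => rfl) (fun _ _ _ _ _ => rfl) ?_ (fun _ _ _ => rfl) ?_
      (fun _ _ _ _ _ => rfl)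
    · intro s' x hs _ hadj
      have h1 : s' = s := by
        rw [Finset.mem_singleton] at hs
        cases s <;> cases s' <;> simp_all
      subst h1
      exact absurd hadj (not_adj_02 h x)
    · intro x y _ _ hadj
      exact absurd hadj (not_adj_12 hj x y)

/-- no edges between the blocks, one of the blocks not connected -/
theorem lose3 (χ : JJ A B → Bool) (hj : χ (.inr (.inl ())) = false)
    (h : ¬ (gn (k1 χ) = ⊤ ∧ gn (k2 χ) = ⊤)) : Obs (Gs χ) := by
  classical
  have hcard : 3 ≤ Nat.card ((A ⧸ gn (k1 χ)) ⊕ (B ⧸ gn (k2 χ))) := by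
    rw [Nat.card_sum]
    have c1 : 0 < Nat.card (A ⧸ gn (k1 χ)) := Nat.card_pos
    have c2 : 0 < Nat.card (B ⧸ gn (k2 χ)) := Nat.card_pos
    by_cases h1 : gn (k1 χ) = ⊤
    · have h2 : gn (k2 χ) ≠ ⊤ := fun h2 => h ⟨h1, h2⟩
      have := two_le_quot h2
      omega
    · have := two_le_quot h1
      omega
  refine ⟨{.inl false, .inl true}, (A ⧸ gn (k1 χ)) ⊕ (B ⧸ gn (k2 χ)), inferInstance,
    fun z => match z with
    | .inl _ => .inl (QuotientAddGroup.mk 0)
    | .inr (.inl x) => .inl (QuotientAddGroup.mk x)
    | .inr (.inr x) => .inr (QuotientAddGroup.mk x), ?_, ?_, by omega, ?_⟩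
  · rintro (k | k)
    · obtain ⟨x, rfl⟩ := QuotientAddGroup.mk_surjective k
      exact ⟨.inr (.inl x), by simp, rfl⟩
    · obtain ⟨x, rfl⟩ := QuotientAddGroup.mk_surjective k
      exact ⟨.inr (.inr x), by simp, rfl⟩
  · refine const_of ?_ ?_ ?_ ?_ ?_ ?_
    · intro s t hs
      exfalso
      apply hs
      cases s <;> simp
    · intro s x hs
      exfalso
      apply hs
      cases s <;> simp
    · intro s x hs
      exfalso
      apply hs
      cases s <;> simp
    · intro x y hadj
      exact congrArg Sum.inl (coset_eq hadj)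
    · intro x y _ _ hadj
      exact absurd hadj (not_adj_12 hj x y)
    · intro x y _ _ hadj
      exact congrArg Sum.inr (coset_eq2 hadj)
  · exact lt_of_le_of_lt (Finset.card_le_two) (by omega)

/-- a fixed point not joined to any block -/
theorem lose5 (χ : JJ A B → Bool) (s : Bool) (h1 : χ (.inl (s, false)) = false)
    (h2 : χ (.inl (s, true)) = false) : Obs (Gs χ) := by
  refine ⟨{.inl (!s)}, Bool, inferInstance, fun z => match z with
    | .inl _ => true
    | .inr _ => false, ?_, ?_, by simp, by simp⟩
  · intro k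
    cases k
    · exact ⟨.inr (.inl 0), by simp, rfl⟩
    · exact ⟨.inl s, by simp, rfl⟩
  · refine const_of (fun _ _ _ _ _ => rfl) ?_ ?_ (fun _ _ _ => rfl) (fun _ _ _ _ _ => rfl)
      (fun _ _ _ _ _ => rfl)
    · intro s' x hs _ hadj
      have h1 : s' = s := by
        rw [Finset.mem_singleton] at hs
        cases s <;> cases s' <;> simp_all
      subst h1
      exact absurd hadj (not_adj_01 (by assumption) x)
    · intro s' x hs _ hadj
      have h1 : s' = s := by
        rw [Finset.mem_singleton] at hs
        cases s <;> cases s' <;> simp_all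
      subst h1
      exact absurd hadj (not_adj_02 h2 x)

/-- the second block -/
def blkB (A B : Type) [Fintype B] : Finset (VV A B) :=
  (Finset.univ : Finset B).map ⟨fun x => .inr (.inr x), fun x y h => by simpa using h⟩

theorem mem_blkB (z : VV A B) : z ∈ blkB A B ↔ ∃ x : B, z = .inr (.inr x) := by
  unfold blkB
  rw [Finset.mem_map]
  constructor
  · rintro ⟨x, _, rfl⟩
    exact ⟨x, rfl⟩
  · rintro ⟨x, rfl⟩
    exact ⟨x, Finset.mem_univ _, rfl⟩

theorem card_blkB : (blkB A B).card = Fintype.card B := by
  unfold blkB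
  rw [Finset.card_map, Finset.card_univ]

/-- too many components of the first block after the deletion of all other vertices -/
theorem lose4 (χ : JJ A B → Bool) (h : Fintype.card B + 2 < Nat.card (A ⧸ gn (k1 χ))) :
    Obs (Gs χ) := by
  classical
  refine ⟨{.inl false, .inl true} ∪ blkB A B, A ⧸ gn (k1 χ), inferInstance,
    fun z => match z with
    | .inl _ => QuotientAddGroup.mk 0
    | .inr (.inl x) => QuotientAddGroup.mk x
    | .inr (.inr _) => QuotientAddGroup.mk 0, ?_, ?_, by omega, ?_⟩
  · intro k
    obtain ⟨x, rfl⟩ := QuotientAddGroup.mk_surjective k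
    exact ⟨.inr (.inl x), by simp [mem_blkB], rfl⟩
  · refine const_of ?_ ?_ ?_ ?_ ?_ ?_
    · intro s t hs
      exfalso
      apply hs
      cases s <;> simp
    · intro s x hs
      exfalso
      apply hs
      cases s <;> simp
    · intro s x hs
      exfalso
      apply hs
      cases s <;> simp
    · intro x y hadj
      exact coset_eq hadj
    · intro x y _ hy
      exfalso
      apply hy
      simp [mem_blkB]
    · intro x y hx
      exfalso
      apply hx
      simp [mem_blkB]
  · refine lt_of_le_of_lt (Finset.card_union_le _ _) ?_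
    rw [card_blkB]
    have : ({.inl false, .inl true} : Finset (VV A B)).card ≤ 2 := Finset.card_le_two
    omega

/-- one fixed point not joined to the first block, too many components after the deletion of the
other fixed point and the second block -/
theorem lose6 (χ : JJ A B → Bool) (s : Bool) (h1 : χ (.inl (s, false)) = false)
    (h : Fintype.card B < Nat.card (A ⧸ gn (k1 χ))) : Obs (Gs χ) := by
  classical
  have hcard : Nat.card (Option (A ⧸ gn (k1 χ))) = Nat.card (A ⧸ gn (k1 χ)) + 1 :=
    Finite.card_option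
  have hB : 0 < Fintype.card B := Fintype.card_pos
  refine ⟨{.inl (!s)} ∪ blkB A B, Option (A ⧸ gn (k1 χ)), inferInstance,
    fun z => match z with
    | .inl _ => none
    | .inr (.inl x) => some (QuotientAddGroup.mk x)
    | .inr (.inr _) => none, ?_, ?_, by omega, ?_⟩
  · rintro (_ | k)
    · exact ⟨.inl s, by simp [mem_blkB], rfl⟩
    · obtain ⟨x, rfl⟩ := QuotientAddGroup.mk_surjective k
      exact ⟨.inr (.inl x), by simp [mem_blkB], rfl⟩
  · refine const_of (fun _ _ _ _ _ => rfl) ?_ (fun _ _ _ _ _ => rfl) ?_ ?_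
      (fun _ _ _ _ _ => rfl)
    · intro s' x hs _ hadj
      have h2 : s' = s := by
        rw [Finset.mem_union, Finset.mem_singleton] at hs
        cases s <;> cases s' <;> simp_all
      subst h2
      exact absurd hadj (not_adj_01 h1 x)
    · intro x y hadj
      exact congrArg some (coset_eq hadj)
    · intro x y _ hy
      exfalso
      apply hy
      simp [mem_blkB]
  · refine lt_of_le_of_lt (Finset.card_union_le _ _) ?_
    rw [card_blkB, Finset.card_singleton]
    omega

/-- the fixed points not joined to the first block, too many components after the deletion of the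
second block -/
theorem lose7 (χ : JJ A B → Bool) (h1 : ∀ s, χ (.inl (s, false)) = false)
    (h : Fintype.card B < Nat.card (A ⧸ gn (k1 χ)) + 1) : Obs (Gs χ) := by
  classical
  have hcard : Nat.card (Option (A ⧸ gn (k1 χ))) = Nat.card (A ⧸ gn (k1 χ)) + 1 :=
    Finite.card_option
  have hc : 0 < Nat.card (A ⧸ gn (k1 χ)) := Nat.card_pos
  refine ⟨blkB A B, Option (A ⧸ gn (k1 χ)), inferInstance,
    fun z => match z with
    | .inl _ => none
    | .inr (.inl x) => some (QuotientAddGroup.mk x)
    | .inr (.inr _) => none, ?_, ?_, by omega, ?_⟩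
  · rintro (_ | k)
    · exact ⟨.inl true, by simp [mem_blkB], rfl⟩
    · obtain ⟨x, rfl⟩ := QuotientAddGroup.mk_surjective k
      exact ⟨.inr (.inl x), by simp [mem_blkB], rfl⟩
  · refine const_of (fun _ _ _ _ _ => rfl) ?_ (fun _ _ _ _ _ => rfl) ?_ ?_
      (fun _ _ _ _ _ => rfl)
    · intro s' x hs _ hadj
      exact absurd hadj (not_adj_01 (h1 s') x)
    · intro x y hadj
      exact congrArg some (coset_eq hadj)
    · intro x y _ hy
      exfalso
      apply hy
      simp [mem_blkB]
  · rw [card_blkB]
    omega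

end

end Run7.h972.Ham
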