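import Pool.Agent.Run7.h972.Win1
import Pool.Agent.Run7.h972.Lose

set_option autoImplicit false
set_option linter.unusedSectionVars false

/-!
# The signed sum
-/

namespace Run7.h972.Ham

open Finset
open Run7.h972.Rel1 (GP1)
open Pool.Agent.H119R2.Kp (GP PV)
open Pool.Agent.TH669.KP (sgn bit GR GR_adj bit_pos bit_neg bit_congr bit_not bit_and sum_sgn
  sgn_sum sum_split)
open Pool.Agent.TH669.KC (Cl cls cls_zero cls_of_ne cls_ne_none cls_neg cls_inj cls_surj)
open Pool.Agent.TH669.KS (SS gn Gm Gm_top_ne)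

/-- the configurations of the edges at the fixed points and of the components of the first block for
which the joined graph is Hamiltonian -/
def W1 (κ : Bool × Bool → Bool) (c b : ℕ) : Prop :=
  (κ (false, false) = true ∧ κ (true, false) = true ∧ c ≤ b + 2) ∨
  (κ (false, false) = true ∧ κ (true, false) = false ∧ κ (true, true) = true ∧ c ≤ b) ∨
  (κ (false, false) = false ∧ κ (true, false) = true ∧ κ (false, true) = true ∧ c ≤ b) ∨
  (κ (false, false) = false ∧ κ (true, false) = false ∧ κ (false, true) = true ∧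
    κ (true, true) = true ∧ c + 1 ≤ b)

section

variable {A B : Type} [AddCommGroup A] [DecidableEq A] [AddCommGroup B] [DecidableEq B]
variable [Fintype A] [Fintype B]

/-- the winning configurations -/
def Wn (χ : JJ A B → Bool) : Prop :=
  (χ (.inr (.inl ())) = true ∧
    W1 (fun e => χ (.inl e)) (Nat.card (A ⧸ gn (k1 χ))) (Fintype.card B)) ∨
  (χ (.inr (.inl ())) = false ∧ (∀ e, χ (.inl e) = true) ∧ gn (k1 χ) = ⊤ ∧ gn (k2 χ) = ⊤)

theorem win (χ : JJ A B → Bool) (h : Wn χ) (hab : Fintype.card B + 2 ≤ Fintype.card A) (t : ℕ)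
    (ht3 : 3 ≤ t) (htn : t ≤ Fintype.card A + Fintype.card B + 2) :
    (SimpleGraph.cycleGraph t).IsContained (Gs χ) := by
  rcases h with ⟨hj, h⟩ | ⟨_, h1, h2, h3⟩
  · rcases h with ⟨h1, h2, hc⟩ | ⟨h1, _, h3, hc⟩ | ⟨_, h2, h3, hc⟩ | ⟨_, _, h3, h4, hc⟩
    · exact win11 χ hj (fun s => by cases s <;> assumption) hc hab t ht3 htn
    · exact win10 χ hj false h1 h3 hc hab t ht3 htn
    · exact win10 χ hj true h2 h3 hc hab t ht3 htn
    · exact win00 χ hj (fun s => by cases s <;> assumption) hc hab t ht3 htn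
  · exact win0 χ h1 h2 h3 (by omega) t ht3 htn

theorem lose (χ : JJ A B → Bool) (h : ¬ Wn χ) : Obs (Gs χ) := by
  cases hj : χ (.inr (.inl ()))
  · by_cases h1 : ∀ s, χ (.inl (s, false)) = true
    · by_cases h2 : ∀ s, χ (.inl (s, true)) = true
      · refine lose3 χ hj fun h3 => h (Or.inr ⟨hj, ?_, h3.1, h3.2⟩)
        rintro ⟨s, t⟩
        cases t
        · exact h1 s
        · exact h2 s
      · push Not at h2
        obtain ⟨s, hs⟩ := h2
        exact lose2 χ hj s (by simpa using hs)
    · push Not at h1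
      obtain ⟨s, hs⟩ := h1
      exact lose1 χ hj s (by simpa using hs)
  · have hW : ¬ W1 (fun e => χ (.inl e)) (Nat.card (A ⧸ gn (k1 χ))) (Fintype.card B) :=
      fun h' => h (Or.inl ⟨hj, h'⟩)
    unfold W1 at hW
    cases h1 : χ (.inl (false, false)) <;> cases h2 : χ (.inl (true, false))
    · -- none joined to the first block
      cases h3 : χ (.inl (false, true))
      · exact lose5 χ false h1 h3
      · cases h4 : χ (.inl (true, true))
        · exact lose5 χ true h2 h4
        · refine lose7 χ (fun s => by cases s <;> assumption) ?_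
          by_contra hcon
          exact hW (Or.inr (Or.inr (Or.inr ⟨h1, h2, h3, h4, by omega⟩)))
    · -- the second one joined
      cases h3 : χ (.inl (false, true))
      · exact lose5 χ false h1 h3
      · refine lose6 χ false h1 ?_
        by_contra hcon
        exact hW (Or.inr (Or.inr (Or.inl ⟨h1, h2, h3, by omega⟩)))
    · cases h3 : χ (.inl (true, true))
      · exact lose5 χ true h2 h3
      · refine lose6 χ true h2 ?_
        by_contra hcon
        exact hW (Or.inr (Or.inl ⟨h1, h2, h3, by omega⟩))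
    · refine lose4 χ ?_
      by_contra hcon
      exact hW (Or.inl ⟨h1, h2, by omega⟩)

theorem sum_true {X : Type} [Fintype X] [DecidableEq X] :
    ∑ κ : X → Bool, sgn κ * bit (∀ e, κ e = true) = (-1) ^ Fintype.card X := by
  rw [Finset.sum_eq_single (fun _ => true)]
  · rw [bit_pos (fun _ => rfl)]
    simp [sgn]
  · intro κ _ hκ
    rw [bit_neg, mul_zero]
    intro h
    exact hκ (funext h)
  · intro h
    exact absurd (Finset.mem_univ _) h

theorem sum_unit (F : (Unit → Bool) → ℤ) :
    ∑ j : Unit → Bool, F j = F (fun _ => true) + F (fun _ => false) := by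
  have h := Fintype.sum_equiv (Equiv.funUnique Unit Bool) F (fun b => F (fun _ => b)) (by
    intro j
    congr 1)
  rw [h, Fintype.sum_bool]

/-- the signed sum over the winning configurations -/
theorem signed_sum (hB : Nontrivial B) :
    ∑ χ : JJ A B → Bool, sgn χ * bit (Wn χ) =
      Gm (⊤ : AddSubgroup A) * Gm (⊤ : AddSubgroup B) := by
  classical
  have hCl : Nonempty (Cl B) := by
    obtain ⟨z, hz⟩ := exists_ne (0 : B)
    exact ⟨⟨s(z, -z), z, hz, rfl⟩⟩
  have step : ∀ κ : Bool × Bool → Bool,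
      ∑ η : J0 A B → Bool, sgn (Sum.elim κ η : JJ A B → Bool) *
        bit (Wn (Sum.elim κ η : JJ A B → Bool)) =
      sgn κ * bit (∀ e, κ e = true) * (Gm (⊤ : AddSubgroup A) * Gm (⊤ : AddSubgroup B)) := by
    intro κ
    rw [sum_split (A := Unit) (B := Cl A ⊕ Cl B), sum_unit]
    have e1 : ∑ ζ : Cl A ⊕ Cl B → Bool,
        sgn (Sum.elim κ (Sum.elim (fun _ => true) ζ) : JJ A B → Bool) *
          bit (Wn (Sum.elim κ (Sum.elim (fun _ => true) ζ) : JJ A B → Bool)) = 0 := by
      rw [sum_split (A := Cl A) (B := Cl B)]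
      refine Finset.sum_eq_zero fun κ1 _ => ?_
      have h1 : ∀ κ2 : Cl B → Bool,
          sgn (Sum.elim κ (Sum.elim (fun _ => true) (Sum.elim κ1 κ2)) : JJ A B → Bool) *
            bit (Wn (Sum.elim κ (Sum.elim (fun _ => true) (Sum.elim κ1 κ2)) : JJ A B → Bool)) =
          (sgn κ * (sgn (fun _ : Unit => true) * sgn κ1) *
            bit (W1 κ (Nat.card (A ⧸ gn κ1)) (Fintype.card B))) * sgn κ2 := by
        intro κ2
        have h2 : Wn (Sum.elim κ (Sum.elim (fun _ => true) (Sum.elim κ1 κ2)) : JJ A B → Bool) ↔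
            W1 κ (Nat.card (A ⧸ gn κ1)) (Fintype.card B) := by
          constructor
          · rintro (⟨_, h⟩ | ⟨h, _⟩)
            · exact h
            · simp at h
          · intro h
            exact Or.inl ⟨rfl, h⟩
        rw [bit_congr h2, sgn_sum, sgn_sum (A := Unit), sgn_sum (A := Cl A)]
        simp only [Sum.elim_inl, Sum.elim_inr]
        ring
      rw [Finset.sum_congr rfl fun κ2 _ => h1 κ2, ← Finset.mul_sum, sum_sgn, mul_zero]
    have e2 : ∑ ζ : Cl A ⊕ Cl B → Bool,
        sgn (Sum.elim κ (Sum.elim (fun _ => false) ζ) : JJ A B → Bool) *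
          bit (Wn (Sum.elim κ (Sum.elim (fun _ => false) ζ) : JJ A B → Bool)) =
        sgn κ * bit (∀ e, κ e = true) * (Gm (⊤ : AddSubgroup A) * Gm (⊤ : AddSubgroup B)) := by
      rw [sum_split (A := Cl A) (B := Cl B)]
      unfold Gm
      rw [Finset.sum_mul_sum, Finset.mul_sum]
      refine Finset.sum_congr rfl fun κ1 _ => ?_
      rw [Finset.mul_sum]
      refine Finset.sum_congr rfl fun κ2 _ => ?_
      have h2 : Wn (Sum.elim κ (Sum.elim (fun _ => false) (Sum.elim κ1 κ2)) : JJ A B → Bool) ↔
          ((∀ e, κ e = true) ∧ (gn κ1 = ⊤ ∧ gn κ2 = ⊤)) := by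
        constructor
        · rintro (⟨h, _⟩ | ⟨_, h⟩)
          · simp at h
          · exact h
        · intro h
          exact Or.inr ⟨rfl, h⟩
      have h3 : sgn (fun _ : Unit => false) = 1 := by simp [sgn]
      rw [bit_congr h2, bit_and, bit_and, sgn_sum, sgn_sum (A := Unit), sgn_sum (A := Cl A)]
      simp only [Sum.elim_inl, Sum.elim_inr]
      rw [h3]
      ring
    rw [e1, e2, zero_add]
  rw [sum_split (A := Bool × Bool) (B := J0 A B), Finset.sum_congr rfl fun κ _ => step κ,
    ← Finset.sum_mul, sum_true]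
  norm_num

/-- **The two block theorem.** -/
theorem two_blocks {n q : ℕ} {Q : SimpleGraph (Fin n) → Prop} (hQ : GP1 n q Q)
    (hlow : ∀ H : SimpleGraph (Fin n),
      (∀ t, 3 ≤ t → t ≤ n → (SimpleGraph.cycleGraph t).IsContained H) → Q H)
    (hup : ∀ H, Q H → OneTough H)
    (hV : Fintype.card (VV A B) = n) (p : ℕ) [Fact p.Prime] {ι : Type} [Fintype ι]
    (a : ι → A × B) (c : A × B) (hap : ∀ i, p • a i = 0)
    (hgen : ∀ t : A × B, t ∈ AddSubgroup.closure (insert c (Set.range a)))
    (hq : q + 1 < n.choose 2) (hB : 2 ≤ Fintype.card B)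
    (hab : Fintype.card B + 2 ≤ Fintype.card A)
    (hsqA : ∀ x : A, Squarefree (addOrderOf x)) (hsqB : ∀ x : B, Squarefree (addOrderOf x)) :
    False := by
  classical
  have hrel := relation hQ hV p a c hap hgen hq
  have hcard : Fintype.card A + Fintype.card B + 2 = n := by
    rw [← hV, Fintype.card_sum, Fintype.card_sum, Fintype.card_bool]
    ring
  have hbit : ∀ χ : JJ A B → Bool, bit (PV Q (VV A B) (Gs χ)) = bit (Wn χ) := by
    intro χ
    refine bit_congr ⟨?_, ?_⟩
    · rintro ⟨e, he⟩
      by_contra hcon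
      exact ((lose χ hcon).map e).not_tough (hup _ he)
    · intro h
      let e : VV A B ≃ Fin n := Fintype.equivFinOfCardEq hV
      refine ⟨e, hlow _ fun t h3 hn => ?_⟩
      obtain ⟨f⟩ := win χ h hab t h3 (by omega)
      refine ⟨⟨⟨fun i => e (f i), fun {u v} huv => ?_⟩, ?_⟩⟩
      · exact (SimpleGraph.map_adj_apply (f := e.toEmbedding)).2 (f.toHom.map_adj huv)
      · intro u v huv
        exact f.injective (e.injective huv)
  rw [Finset.sum_congr rfl fun χ _ => by rw [hbit χ]] at hrel
  have hnt : Nontrivial B := Fintype.one_lt_card_iff_nontrivial.1 (by omega)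
  rw [signed_sum hnt, mul_eq_zero] at hrel
  rcases hrel with h | h
  · exact Gm_top_ne hsqA h
  · exact Gm_top_ne hsqB h

end

end Run7.h972.Ham
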