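import Mathlib
import Pool.Agent.TH669.KP.NT

set_option autoImplicit false

/-!
# Coprime squarefree decompositions of all `N ≥ 2 ^ 20`
-/

namespace Run7.h972.Large

open Finset
open Pool.Agent.TH669.KP.NT (S sieve base_count residue)

/-- the sum of `1 / m ^ 2` over a set of odd numbers which are at least `2 j + 1` -/
theorem sum_sq_odd (j : ℕ) (hj : 1 ≤ j) (Q : Finset ℕ) (hQ : ∀ l ∈ Q, Odd l ∧ 2 * j + 1 ≤ l) :
    ∑ l ∈ Q, 1 / (l : ℝ) ^ 2 ≤ 1 / (4 * (j : ℝ)) := by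
  classical
  have h1 : ∀ n : ℕ, ∑ l ∈ Finset.range n, 1 / ((2 * (j + l) + 1 : ℕ) : ℝ) ^ 2 ≤
      1 / (4 * (j : ℝ)) - 1 / (4 * ((j : ℝ) + n)) := by
    intro n
    induction n with
    | zero => simp
    | succ n ih =>
      rw [Finset.sum_range_succ]
      have hj0 : (0 : ℝ) < j := by exact_mod_cast hj
      have h2 : (1 : ℝ) / ((2 * (j + n) + 1 : ℕ) : ℝ) ^ 2 ≤
          1 / (4 * ((j : ℝ) + n)) - 1 / (4 * ((j : ℝ) + (n + 1 : ℕ))) := by
        push_cast
        have h3 : (0 : ℝ) ≤ n := Nat.cast_nonneg n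
        have h4 : (0 : ℝ) < (j : ℝ) + n := by positivity
        rw [div_sub_div _ _ (by positivity) (by positivity),
          div_le_div_iff₀ (by positivity) (by positivity)]
        nlinarith
      linarith
  have h2 : Q ⊆ (Finset.range (Q.sup id + 1)).image fun l => 2 * (j + l) + 1 := by
    intro l hl
    obtain ⟨⟨i, hi⟩, h3⟩ := hQ l hl
    have h4 := Finset.le_sup (f := id) hl
    simp only [id] at h4
    rw [Finset.mem_image]
    exact ⟨i - j, Finset.mem_range.2 (by omega), by omega⟩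
  have h3 := Finset.sum_le_sum_of_subset_of_nonneg (f := fun l : ℕ => 1 / (l : ℝ) ^ 2) h2
    (fun _ _ _ => by positivity)
  rw [Finset.sum_image (by
    intro a _ b _ h
    simp only at h
    omega)] at h3
  have h4 := h1 (Q.sup id + 1)
  have h5 : (0 : ℝ) ≤ 1 / (4 * ((j : ℝ) + (Q.sup id + 1 : ℕ))) := by positivity
  linarith

/-- the number of odd numbers between `5` and `2 j` -/
theorem card_odd (j : ℕ) (hj : 2 ≤ j) (Q : Finset ℕ) (hQ : ∀ l ∈ Q, Odd l ∧ 5 ≤ l ∧ l ≤ 2 * j) :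
    Q.card + 2 ≤ j := by
  classical
  have h1 : Q ⊆ (Finset.Ico 2 j).image fun l => 2 * l + 1 := by
    intro l hl
    obtain ⟨⟨i, hi⟩, h2, h3⟩ := hQ l hl
    rw [Finset.mem_image]
    exact ⟨i, Finset.mem_Ico.2 ⟨by omega, by omega⟩, by omega⟩
  have h2 := (Finset.card_le_card h1).trans Finset.card_image_le
  rw [Nat.card_Ico] at h2
  omega

/-- lower bound for the density -/
theorem prod_low (P : Finset ℕ) (hP : ∀ l ∈ P, 5 ≤ l) :
    4 / ((P.card : ℝ) + 4) ≤ ∏ l ∈ P, (1 - 1 / (l : ℝ)) := by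
  classical
  induction P using Finset.induction_on_max with
  | empty => simp
  | insert a s ha ih =>
    have hs : ∀ l ∈ s, 5 ≤ l := fun l hl => hP l (Finset.mem_insert_of_mem hl)
    have has : a ∉ s := fun h => lt_irrefl _ (ha a h)
    have h1 : s.card + 5 ≤ a := by
      have h2 : insert a s ⊆ Finset.Icc 5 a := by
        intro x hx
        rw [Finset.mem_Icc]
        refine ⟨hP x hx, ?_⟩
        rcases Finset.mem_insert.1 hx with rfl | h
        · exact le_rfl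
        · exact (ha x h).le
      have h3 := Finset.card_le_card h2
      rw [Finset.card_insert_of_notMem has, Nat.card_Icc] at h3
      omega
    rw [Finset.prod_insert has, Finset.card_insert_of_notMem has]
    have h4 := ih hs
    have h5 : ((s.card : ℝ) + 4) / ((s.card : ℝ) + 5) ≤ 1 - 1 / (a : ℝ) := by
      have h6 : ((s.card : ℝ) + 5) ≤ a := by exact_mod_cast h1
      have h7 : 1 / (a : ℝ) ≤ 1 / ((s.card : ℝ) + 5) := one_div_le_one_div_of_le (by positivity) h6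
      have h8 : ((s.card : ℝ) + 4) / ((s.card : ℝ) + 5) = 1 - 1 / ((s.card : ℝ) + 5) := by
        field_simp
        ring
      linarith
    calc 4 / (((s.card + 1 : ℕ) : ℝ) + 4)
        = ((s.card : ℝ) + 4) / ((s.card : ℝ) + 5) * (4 / ((s.card : ℝ) + 4)) := by
          push_cast
          field_simp
          ring
      _ ≤ (1 - 1 / (a : ℝ)) * ∏ l ∈ s, (1 - 1 / (l : ℝ)) :=
          mul_le_mul h5 h4 (by positivity) (le_trans (by positivity) h5)

/-- lower bound for the product -/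
theorem prod_big (P : Finset ℕ) (hP : ∀ l ∈ P, l.Prime ∧ 5 ≤ l) :
    11 ^ (P.card - 2) ≤ ∏ l ∈ P, l := by
  classical
  set A := P.filter fun l => l < 11
  set B := P.filter fun l => ¬ l < 11
  have h1 : P.card = A.card + B.card := (Finset.card_filter_add_card_filter_not _).symm
  have h2 : A.card ≤ 2 := by
    have : A ⊆ {5, 7} := by
      intro l hl
      obtain ⟨h3, h4⟩ := Finset.mem_filter.1 hl
      obtain ⟨h5, h6⟩ := hP l h3
      have h7 : l = 5 ∨ l = 6 ∨ l = 7 ∨ l = 8 ∨ l = 9 ∨ l = 10 := by omega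
      rcases h7 with rfl | rfl | rfl | rfl | rfl | rfl
      · simp
      · exact absurd h5 (by norm_num)
      · simp
      · exact absurd h5 (by norm_num)
      · exact absurd h5 (by norm_num)
      · exact absurd h5 (by norm_num)
    exact (Finset.card_le_card this).trans (by decide)
  have h3 : 11 ^ B.card ≤ ∏ l ∈ B, l := by
    rw [← Finset.prod_const]
    refine Finset.prod_le_prod' fun l hl => ?_
    have := (Finset.mem_filter.1 hl).2
    omega
  have h4 : ∏ l ∈ B, l ≤ ∏ l ∈ P, l :=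
    Finset.prod_le_prod_of_subset_of_one_le' (Finset.filter_subset _ _)
      fun l hl _ => (by have := (hP l hl).2; omega)
  calc 11 ^ (P.card - 2) ≤ 11 ^ B.card := Nat.pow_le_pow_right (by norm_num) (by omega)
    _ ≤ ∏ l ∈ B, l := h3
    _ ≤ _ := h4

/-- the growth inequality -/
theorem growth (k : ℕ) (N : ℕ) (h1 : 2 ^ 20 ≤ N) (h2 : 11 ^ (k - 2) ≤ N) :
    24 * (k + 4) * (2 ^ k * (k + 2)) + 96 < N ∧ 2304 * (k + 4) ^ 2 ≤ N := by
  have key : ∀ j : ℕ, 24 * (j + 8 + 4) * (2 ^ (j + 8) * (j + 8 + 2)) + 96 < 11 ^ (j + 8 - 2) ∧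
      2304 * (j + 8 + 4) ^ 2 ≤ 11 ^ (j + 8 - 2) := by
    intro j
    induction j with
    | zero => norm_num
    | succ j ih =>
      obtain ⟨h3, h4⟩ := ih
      have e1 : 11 ^ (j + 1 + 8 - 2) = 11 ^ (j + 8 - 2) * 11 := by
        rw [← pow_succ]
        congr 1
      rw [e1]
      constructor
      · have h5 : 24 * (j + 1 + 8 + 4) * (2 ^ (j + 1 + 8) * (j + 1 + 8 + 2)) ≤
            24 * (j + 8 + 4) * (2 ^ (j + 8) * (j + 8 + 2)) * 4 := by
          have h6 : 2 ^ (j + 1 + 8) = 2 ^ (j + 8) * 2 := by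
            rw [← pow_succ]
          rw [h6]
          have h7 : (j + 1 + 8 + 4) * (j + 1 + 8 + 2) ≤ (j + 8 + 4) * (j + 8 + 2) * 2 := by nlinarith
          calc 24 * (j + 1 + 8 + 4) * (2 ^ (j + 8) * 2 * (j + 1 + 8 + 2))
              = 48 * 2 ^ (j + 8) * ((j + 1 + 8 + 4) * (j + 1 + 8 + 2)) := by ring
            _ ≤ 48 * 2 ^ (j + 8) * ((j + 8 + 4) * (j + 8 + 2) * 2) := Nat.mul_le_mul_left _ h7
            _ = _ := by ring
        omega
      · have h5 : 2304 * (j + 1 + 8 + 4) ^ 2 ≤ 2304 * (j + 8 + 4) ^ 2 * 2 := by nlinarith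
        omega
  rcases Nat.lt_or_ge k 8 with h | h
  · interval_cases k <;> norm_num at h1 ⊢ <;> omega
  · obtain ⟨j, rfl⟩ : ∃ j, k = j + 8 := ⟨k - 8, by omega⟩
    obtain ⟨h3, h4⟩ := key j
    exact ⟨lt_of_lt_of_le h3 h2, h4.trans h2⟩

theorem start (N : ℕ) (hN : 100 ≤ N) : ∃ a0, 2 ≤ a0 ∧ a0 ≤ 10 ∧ ¬ 4 ∣ a0 ∧ ¬ 4 ∣ N - a0 ∧
    ¬ 3 ∣ a0 ∧ ¬ 3 ∣ N - a0 ∧ ¬ (2 ∣ a0 ∧ 2 ∣ N - a0) := by
  rcases Nat.even_or_odd' N with ⟨c, hc | hc⟩
  · by_cases h : N % 3 = 2
    · exact ⟨7, by omega, by omega, by omega, by omega, by omega, by omega, by omega⟩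
    · exact ⟨5, by omega, by omega, by omega, by omega, by omega, by omega, by omega⟩
  · by_cases h : N % 3 = 2
    · exact ⟨10, by omega, by omega, by omega, by omega, by omega, by omega, by omega⟩
    · exact ⟨2, by omega, by omega, by omega, by omega, by omega, by omega, by omega⟩

theorem large (N : ℕ) (hN : 2 ^ 20 ≤ N) : ∃ b, 2 ≤ b ∧ 2 * b + 2 ≤ N ∧
    Squarefree b ∧ Squarefree (N - b) ∧ Nat.Coprime b (N - b) := by
  classical
  have hN' : 1048576 ≤ N := by norm_num at hN; exact hN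
  obtain ⟨a0, ha2, ha10, h4, h4', h3, h3', h2⟩ := start N (by omega)
  by_contra hno
  push Not at hno
  set H := N / 24 - 1 with hH
  have hH1 : N ≤ 24 * H + 47 := by omega
  have hH2 : ∀ t, t < H → 2 * (a0 + 12 * t) + 2 ≤ N := by
    intro t ht
    omega
  set P := N.primeFactors.filter (5 ≤ ·) with hPdef
  have hP : ∀ l ∈ P, l.Prime := fun l hl => Nat.prime_of_mem_primeFactors (Finset.mem_filter.1 hl).1
  have hPN : ∀ l ∈ P, l ∣ N := fun l hl => Nat.dvd_of_mem_primeFactors (Finset.mem_filter.1 hl).1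
  have hP5 : ∀ l ∈ P, 5 ≤ l := fun l hl => (Finset.mem_filter.1 hl).2
  have hPm : ∀ l, l.Prime → 5 ≤ l → l ∣ N → l ∈ P := fun l h1 h2 h3 =>
    Finset.mem_filter.2 ⟨Nat.mem_primeFactors.2 ⟨h1, h3, by omega⟩, h2⟩
  set s := Nat.sqrt N with hs
  have hss : s * s ≤ N := Nat.sqrt_le N
  set Q := (Finset.Icc 1 s).filter fun l => l.Prime ∧ 5 ≤ l ∧ ¬ l ∣ N with hQdef
  have hcop : ∀ l : ℕ, l.Prime → 5 ≤ l → Nat.Coprime l 12 := by
    intro l hl hl5
    rw [Nat.Prime.coprime_iff_not_dvd hl]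
    intro h
    have h12 : (12 : ℕ) = 2 * 2 * 3 := by norm_num
    rw [h12] at h
    rcases (hl.dvd_mul).1 h with h | h
    · rcases (hl.dvd_mul).1 h with h | h <;> exact absurd (Nat.le_of_dvd (by norm_num) h) (by omega)
    · exact absurd (Nat.le_of_dvd (by norm_num) h) (by omega)
  have hr' : ∀ l : ℕ, ∃ r, l.Prime → 5 ≤ l → ∀ t, l ∣ a0 + 12 * t ↔ t ≡ r [MOD l] := by
    intro l
    by_cases hl : l.Prime ∧ 5 ≤ l
    · obtain ⟨r, hr⟩ := residue l a0 (hcop l hl.1 hl.2) hl.1.pos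
      exact ⟨r, fun _ _ => hr⟩
    · exact ⟨0, fun h h' => absurd ⟨h, h'⟩ hl⟩
  choose r hr using hr'
  have hc1' : ∀ l : ℕ, ∃ r, l.Prime → 5 ≤ l → ∀ t, l ^ 2 ∣ a0 + 12 * t ↔ t ≡ r [MOD l ^ 2] := by
    intro l
    by_cases hl : l.Prime ∧ 5 ≤ l
    · obtain ⟨r, hr⟩ := residue (l ^ 2) a0 ((hcop l hl.1 hl.2).pow_left 2) (pow_pos hl.1.pos 2)
      exact ⟨r, fun _ _ => hr⟩
    · exact ⟨0, fun h h' => absurd ⟨h, h'⟩ hl⟩
  choose c1 hc1 using hc1'
  have hc2' : ∀ l : ℕ, ∃ r, l.Prime → 5 ≤ l → ∀ t, l ^ 2 ∣ (a0 + (l ^ 2 - 1) * N) + 12 * t ↔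
      t ≡ r [MOD l ^ 2] := by
    intro l
    by_cases hl : l.Prime ∧ 5 ≤ l
    · obtain ⟨r, hr⟩ := residue (l ^ 2) (a0 + (l ^ 2 - 1) * N) ((hcop l hl.1 hl.2).pow_left 2)
        (pow_pos hl.1.pos 2)
      exact ⟨r, fun _ _ => hr⟩
    · exact ⟨0, fun h h' => absurd ⟨h, h'⟩ hl⟩
  choose c2 hc2 using hc2'
  have hsub : S H r P 1 0 ⊆ Q.biUnion fun l => S H r P (l ^ 2) (c1 l) ∪ S H r P (l ^ 2) (c2 l) := by
    intro t ht
    unfold S at ht
    rw [Finset.mem_filter, Finset.mem_range] at ht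
    obtain ⟨htH, -, htP⟩ := ht
    have hbt := hH2 t htH
    set b := a0 + 12 * t with hb
    have hbN : b < N := by omega
    have hPb : ∀ l, l.Prime → 5 ≤ l → l ∣ N → ¬ l ∣ b := fun l h1 h2 h3 h =>
      htP l (hPm l h1 h2 h3) ((hr l h1 h2 t).1 h)
    have e4 : ¬ 4 ∣ b := by omega
    have e3 : ¬ 3 ∣ b := by omega
    have e4' : ¬ 4 ∣ N - b := by omega
    have e3' : ¬ 3 ∣ N - b := by omega
    have e2 : ¬ (2 ∣ b ∧ 2 ∣ N - b) := by omega
    have hp5 : ∀ l : ℕ, l.Prime → l ≠ 2 → l ≠ 3 → 5 ≤ l := by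
      intro l hl hl2 hl3
      have h1 := hl.two_le
      have h4 : l ≠ 4 := by rintro rfl; revert hl; decide
      omega
    have hcp : Nat.Coprime b (N - b) := by
      by_contra hnc
      obtain ⟨l, hl, hl1, hl2⟩ := Nat.Prime.not_coprime_iff_dvd.1 hnc
      have hlN : l ∣ N := by
        have := dvd_add hl1 hl2
        rwa [Nat.add_sub_cancel' hbN.le] at this
      by_cases hl2' : l = 2
      · subst hl2'
        exact e2 ⟨hl1, hl2⟩
      by_cases hl3' : l = 3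
      · subst hl3'
        exact e3 hl1
      exact hPb l hl (hp5 l hl hl2' hl3') hlN hl1
    have hmem : ∃ l, l ∈ Q ∧ (l ^ 2 ∣ b ∨ l ^ 2 ∣ N - b) := by
      have hno' := hno b (by omega) hbt
      by_cases hsq : Squarefree b
      · have hnsq : ¬ Squarefree (N - b) := fun h => hno' hsq h hcp
        rw [Nat.squarefree_iff_prime_squarefree] at hnsq
        push Not at hnsq
        obtain ⟨l, hl, hll⟩ := hnsq
        have hld : l ∣ N - b := (dvd_mul_right l l).trans hll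
        have hl2' : l ≠ 2 := by
          rintro rfl
          exact e4' hll
        have hl3' : l ≠ 3 := by
          rintro rfl
          exact e3' hld
        have hl5 := hp5 l hl hl2' hl3'
        refine ⟨l, ?_, Or.inr (by rw [pow_two]; exact hll)⟩
        rw [hQdef, Finset.mem_filter, Finset.mem_Icc]
        refine ⟨⟨by omega, ?_⟩, hl, hl5, ?_⟩
        · rw [hs, Nat.le_sqrt]
          exact (Nat.le_of_dvd (by omega) hll).trans (Nat.sub_le _ _)
        · intro hlN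
          apply hPb l hl hl5 hlN
          have := Nat.dvd_sub hlN hld
          rwa [Nat.sub_sub_self hbN.le] at this
      · rw [Nat.squarefree_iff_prime_squarefree] at hsq
        push Not at hsq
        obtain ⟨l, hl, hll⟩ := hsq
        have hld : l ∣ b := (dvd_mul_right l l).trans hll
        have hl2' : l ≠ 2 := by
          rintro rfl
          exact e4 hll
        have hl3' : l ≠ 3 := by
          rintro rfl
          exact e3 hld
        have hl5 := hp5 l hl hl2' hl3'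
        refine ⟨l, ?_, Or.inl (by rw [pow_two]; exact hll)⟩
        rw [hQdef, Finset.mem_filter, Finset.mem_Icc]
        refine ⟨⟨by omega, ?_⟩, hl, hl5, fun hlN => hPb l hl hl5 hlN hld⟩
        rw [hs, Nat.le_sqrt]
        exact (Nat.le_of_dvd (by omega) hll).trans hbN.le
    obtain ⟨l, hlQ, hl⟩ := hmem
    rw [Finset.mem_biUnion]
    refine ⟨l, hlQ, ?_⟩
    rw [hQdef, Finset.mem_filter] at hlQ
    obtain ⟨-, hlp, hl5, -⟩ := hlQ
    rw [Finset.mem_union]
    rcases hl with hl | hl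
    · left
      unfold S
      rw [Finset.mem_filter, Finset.mem_range]
      exact ⟨htH, (hc1 l hlp hl5 t).1 hl, htP⟩
    · right
      unfold S
      rw [Finset.mem_filter, Finset.mem_range]
      refine ⟨htH, (hc2 l hlp hl5 t).1 ?_, htP⟩
      have h5 : (a0 + (l ^ 2 - 1) * N) + 12 * t + (N - b) = l ^ 2 * N := by
        obtain ⟨k, hk⟩ : ∃ k, l ^ 2 = k + 1 := ⟨l ^ 2 - 1, by
          have := pow_pos hlp.pos 2; omega⟩
        rw [hk, Nat.add_sub_cancel, Nat.add_mul]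
        omega
      have h6 : l ^ 2 ∣ (a0 + (l ^ 2 - 1) * N) + 12 * t + (N - b) := by
        rw [h5]
        exact dvd_mul_right _ _
      exact (Nat.dvd_add_left hl).1 h6
  have hcard := (Finset.card_le_card hsub).trans Finset.card_biUnion_le
  set k := P.card with hk
  set W : ℝ := (2 : ℝ) ^ k with hW
  set Φ : ℝ := ∏ l ∈ P, (1 - 1 / (l : ℝ)) with hΦ
  have hΦ0 : 4 / ((k : ℝ) + 4) ≤ Φ := prod_low P hP5
  have hk4 : (0 : ℝ) < (k : ℝ) + 4 := by positivity
  have hΦ1 : 0 < Φ := lt_of_lt_of_le (by positivity) hΦ0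
  have hHR : (0 : ℝ) ≤ (H : ℝ) := Nat.cast_nonneg H
  have hlow := sieve H r P hP 1 0 one_pos (fun l _ => Nat.coprime_one_left l)
  rw [abs_le] at hlow
  have hQodd : ∀ l ∈ Q, Odd l ∧ 5 ≤ l := by
    intro l hl
    rw [hQdef, Finset.mem_filter] at hl
    exact ⟨hl.2.1.odd_of_ne_two (by omega), hl.2.2.1⟩
  have hup1 : ∀ l ∈ Q, (((S H r P (l ^ 2) (c1 l) ∪ S H r P (l ^ 2) (c2 l)).card : ℕ) : ℝ) ≤
      2 * (H * Φ) * (1 / (l : ℝ) ^ 2) + 2 * W := by
    intro l hl
    have hl' := hl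
    rw [hQdef, Finset.mem_filter] at hl
    obtain ⟨-, hlp, hl5, hlN⟩ := hl
    have hone : ∀ c, ((S H r P (l ^ 2) c).card : ℝ) ≤ H * Φ * (1 / (l : ℝ) ^ 2) + W := by
      intro c
      have h1 := sieve H r P hP (l ^ 2) c (pow_pos hlp.pos 2) (fun l' hl' =>
        Nat.Coprime.pow_left 2 ((Nat.coprime_primes hlp (hP l' hl')).2 fun h => hlN (h ▸ hPN l' hl')))
      rw [abs_le] at h1
      have h2 : (H : ℝ) / ((l ^ 2 : ℕ) : ℝ) * Φ = H * Φ * (1 / (l : ℝ) ^ 2) := by
        push_cast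
        ring
      linarith [h1.2]
    have h1 : (((S H r P (l ^ 2) (c1 l) ∪ S H r P (l ^ 2) (c2 l)).card : ℕ) : ℝ) ≤
        (S H r P (l ^ 2) (c1 l)).card + (S H r P (l ^ 2) (c2 l)).card := by
      exact_mod_cast Finset.card_union_le _ _
    have h2 := hone (c1 l)
    have h3 := hone (c2 l)
    linarith
  have hup2 : ∀ l ∈ Q, (((S H r P (l ^ 2) (c1 l) ∪ S H r P (l ^ 2) (c2 l)).card : ℕ) : ℝ) ≤
      2 * H * (1 / (l : ℝ) ^ 2) + 2 := by
    intro l hl
    rw [hQdef, Finset.mem_filter] at hl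
    obtain ⟨-, hlp, hl5, hlN⟩ := hl
    have hone : ∀ c, ((S H r P (l ^ 2) c).card : ℝ) ≤ H * (1 / (l : ℝ) ^ 2) + 1 := by
      intro c
      have h1 := base_count H (l ^ 2) c (pow_pos hlp.pos 2)
      rw [abs_le] at h1
      have h2 : (S H r P (l ^ 2) c).card ≤
          ((range H).filter fun t => t ≡ c [MOD l ^ 2]).card := by
        refine Finset.card_le_card ?_
        intro t ht
        unfold S at ht
        rw [Finset.mem_filter] at ht ⊢
        exact ⟨ht.1, ht.2.1⟩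
      have h3 : ((S H r P (l ^ 2) c).card : ℝ) ≤
          (((range H).filter fun t => t ≡ c [MOD l ^ 2]).card : ℝ) := by exact_mod_cast h2
      have h4 : (H : ℝ) / ((l ^ 2 : ℕ) : ℝ) = H * (1 / (l : ℝ) ^ 2) := by
        push_cast
        ring
      linarith [h1.2]
    have h1 : (((S H r P (l ^ 2) (c1 l) ∪ S H r P (l ^ 2) (c2 l)).card : ℕ) : ℝ) ≤
        (S H r P (l ^ 2) (c1 l)).card + (S H r P (l ^ 2) (c2 l)).card := by
      exact_mod_cast Finset.card_union_le _ _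
    have h2 := hone (c1 l)
    have h3 := hone (c2 l)
    linarith
  set j := (k + 5) / 2 with hj
  have hj1 : k + 4 ≤ 2 * j := by omega
  have hj2 : 2 * j ≤ k + 5 := by omega
  have hj3 : 2 ≤ j := by omega
  set Q1 := Q.filter fun l => l ≤ 2 * j with hQ1
  set Q2 := Q.filter fun l => ¬ l ≤ 2 * j with hQ2
  have hsum1 : ∑ l ∈ Q1, (((S H r P (l ^ 2) (c1 l) ∪ S H r P (l ^ 2) (c2 l)).card : ℕ) : ℝ) ≤
      H * Φ * (1 / 4) + ((j : ℝ) - 2) * (2 * W) := by
    have hW0 : 0 ≤ W := by positivity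
    calc ∑ l ∈ Q1, (((S H r P (l ^ 2) (c1 l) ∪ S H r P (l ^ 2) (c2 l)).card : ℕ) : ℝ)
        ≤ ∑ l ∈ Q1, (2 * (H * Φ) * (1 / (l : ℝ) ^ 2) + 2 * W) :=
          Finset.sum_le_sum fun l hl => hup1 l (Finset.mem_filter.1 hl).1
      _ = 2 * (H * Φ) * ∑ l ∈ Q1, 1 / (l : ℝ) ^ 2 + Q1.card * (2 * W) := by
          rw [Finset.sum_add_distrib, Finset.mul_sum, Finset.sum_const, nsmul_eq_mul]
      _ ≤ 2 * (H * Φ) * (1 / (4 * ((2 : ℕ) : ℝ))) + ((j : ℝ) - 2) * (2 * W) := by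
          have h1 := sum_sq_odd 2 (by norm_num) Q1 fun l hl => by
            have := hQodd l (Finset.mem_filter.1 hl).1
            exact ⟨this.1, by omega⟩
          have h2 := card_odd j hj3 Q1 fun l hl => by
            have := hQodd l (Finset.mem_filter.1 hl).1
            exact ⟨this.1, this.2, (Finset.mem_filter.1 hl).2⟩
          have h3 : (Q1.card : ℝ) ≤ (j : ℝ) - 2 := by
            have : ((Q1.card + 2 : ℕ) : ℝ) ≤ (j : ℝ) := by exact_mod_cast h2
            push_cast at this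
            linarith
          have h4 : (0 : ℝ) ≤ 2 * (H * Φ) := by positivity
          have h5 : (0 : ℝ) ≤ 2 * W := by positivity
          exact add_le_add (mul_le_mul_of_nonneg_left h1 h4) (mul_le_mul_of_nonneg_right h3 h5)
      _ = H * Φ * (1 / 4) + ((j : ℝ) - 2) * (2 * W) := by
          push_cast
          ring
  have hsum2 : ∑ l ∈ Q2, (((S H r P (l ^ 2) (c1 l) ∪ S H r P (l ^ 2) (c2 l)).card : ℕ) : ℝ) ≤
      H / (2 * (j : ℝ)) + 2 * s := by
    have hj0 : (0 : ℝ) < j := by exact_mod_cast (by omega : 0 < j)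
    calc ∑ l ∈ Q2, (((S H r P (l ^ 2) (c1 l) ∪ S H r P (l ^ 2) (c2 l)).card : ℕ) : ℝ)
        ≤ ∑ l ∈ Q2, (2 * H * (1 / (l : ℝ) ^ 2) + 2) :=
          Finset.sum_le_sum fun l hl => hup2 l (Finset.mem_filter.1 hl).1
      _ = 2 * H * ∑ l ∈ Q2, 1 / (l : ℝ) ^ 2 + Q2.card * 2 := by
          rw [Finset.sum_add_distrib, Finset.mul_sum, Finset.sum_const, nsmul_eq_mul]
      _ ≤ 2 * H * (1 / (4 * (j : ℝ))) + s * 2 := by
          have h1 := sum_sq_odd j (by omega) Q2 fun l hl => by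
            have := hQodd l (Finset.mem_filter.1 hl).1
            have h2 := (Finset.mem_filter.1 hl).2
            exact ⟨this.1, by omega⟩
          have h2 : (Q2.card : ℝ) ≤ s := by
            have h3 : Q2.card ≤ (Finset.Icc 1 s).card :=
              Finset.card_le_card ((Finset.filter_subset _ _).trans (Finset.filter_subset _ _))
            rw [Nat.card_Icc, Nat.add_sub_cancel] at h3
            exact_mod_cast h3
          have h4 : (0 : ℝ) ≤ 2 * H := by positivity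
          exact add_le_add (mul_le_mul_of_nonneg_left h1 h4)
            (mul_le_mul_of_nonneg_right h2 (by norm_num))
      _ = H / (2 * (j : ℝ)) + 2 * s := by
          field_simp
          ring
  have hcard' : ((S H r P 1 0).card : ℝ) ≤
      (H * Φ * (1 / 4) + ((j : ℝ) - 2) * (2 * W)) + (H / (2 * (j : ℝ)) + 2 * s) := by
    have h1 : ((S H r P 1 0).card : ℝ) ≤
        ∑ l ∈ Q, (((S H r P (l ^ 2) (c1 l) ∪ S H r P (l ^ 2) (c2 l)).card : ℕ) : ℝ) := by
      exact_mod_cast hcard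
    rw [← Finset.sum_filter_add_sum_filter_not Q fun l => l ≤ 2 * j] at h1
    linarith
  have hjk : (H : ℝ) / (2 * (j : ℝ)) ≤ H * Φ * (1 / 4) := by
    have h1 : ((k : ℝ) + 4) ≤ 2 * (j : ℝ) := by exact_mod_cast hj1
    have h2 : (H : ℝ) / (2 * (j : ℝ)) ≤ H / ((k : ℝ) + 4) :=
      div_le_div_of_nonneg_left hHR hk4 h1
    have h3 : (H : ℝ) / ((k : ℝ) + 4) = H * (4 / ((k : ℝ) + 4)) * (1 / 4) := by
      field_simp
    have h4 : (H : ℝ) * (4 / ((k : ℝ) + 4)) ≤ H * Φ := mul_le_mul_of_nonneg_left hΦ0 hHR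
    rw [h3] at h2
    linarith
  have hW0 : 0 ≤ W := by positivity
  have hmain : (H : ℝ) * Φ * (1 / 2) ≤ W * ((k : ℝ) + 2) + 2 * s := by
    have h1 := hlow.1
    push_cast at h1
    rw [div_one] at h1
    have h2 : 2 * (j : ℝ) ≤ (k : ℝ) + 5 := by exact_mod_cast hj2
    have h3 : ((j : ℝ) - 2) * (2 * W) ≤ W * ((k : ℝ) + 1) := by nlinarith
    linarith
  have hmain2 : 2 * (H : ℝ) ≤ ((k : ℝ) + 4) * (W * ((k : ℝ) + 2) + 2 * s) := by
    have h1 : (H : ℝ) * (4 / ((k : ℝ) + 4)) ≤ H * Φ := mul_le_mul_of_nonneg_left hΦ0 hHR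
    have h2 : (H : ℝ) * (4 / ((k : ℝ) + 4)) * (1 / 2) ≤ W * ((k : ℝ) + 2) + 2 * s := by linarith
    have h3 : (H : ℝ) * (4 / ((k : ℝ) + 4)) * (1 / 2) = 2 * H / ((k : ℝ) + 4) := by
      field_simp
      ring
    rw [h3, div_le_iff₀ hk4] at h2
    linarith
  have hnat : 2 * H ≤ (k + 4) * (2 ^ k * (k + 2) + 2 * s) := by
    have h1 : ((2 * H : ℕ) : ℝ) ≤ (((k + 4) * (2 ^ k * (k + 2) + 2 * s) : ℕ) : ℝ) := by
      push_cast
      exact hmain2
    exact_mod_cast h1
  have hprod : 11 ^ (k - 2) ≤ N := by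
    refine (prod_big P fun l hl => ⟨hP l hl, hP5 l hl⟩).trans ?_
    refine Nat.le_of_dvd (by omega) ?_
    exact Finset.prod_primes_dvd N (fun l hl => (hP l hl).prime) fun l hl => hPN l hl
  obtain ⟨g1, g2⟩ := growth k N hN hprod
  have g3 : 48 * (k + 4) * s ≤ N := by
    have h1 : (48 * (k + 4) * s) ^ 2 ≤ N ^ 2 := by
      calc (48 * (k + 4) * s) ^ 2 = (2304 * (k + 4) ^ 2) * (s * s) := by ring
        _ ≤ N * N := Nat.mul_le_mul g2 hss
        _ = N ^ 2 := by ring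
    exact (Nat.pow_le_pow_iff_left (by norm_num)).1 h1
  have g4 : 24 * H ≤ 12 * (k + 4) * (2 ^ k * (k + 2)) + 24 * (k + 4) * s := by
    calc 24 * H = 12 * (2 * H) := by ring
      _ ≤ 12 * ((k + 4) * (2 ^ k * (k + 2) + 2 * s)) := Nat.mul_le_mul_left _ hnat
      _ = _ := by ring
  have g5 : 24 * (k + 4) * (2 ^ k * (k + 2)) = 2 * (12 * (k + 4) * (2 ^ k * (k + 2))) := by ring
  have g6 : 48 * (k + 4) * s = 2 * (24 * (k + 4) * s) := by ring
  omega

end Run7.h972.Large
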