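import Mathlib
import Pool.Agent.TH669.KP.HamPath

set_option autoImplicit false

/-!
# Lists with few breaks, interleaving, and cycles in graphs
-/

namespace Run7.h972.Ham

open List

section brk

variable {V : Type}

open Classical in
/-- the number of consecutive pairs which are not related -/
noncomputable def brk (R : V → V → Prop) : List V → ℕ
  | [] => 0
  | [_] => 0
  | x :: y :: l => (if R x y then 0 else 1) + brk R (y :: l)

theorem brk_nil (R : V → V → Prop) : brk R [] = 0 := rfl

theorem brk_single (R : V → V → Prop) (x : V) : brk R [x] = 0 := rfl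

theorem brk_pos {R : V → V → Prop} {x y : V} (h : R x y) (l : List V) :
    brk R (x :: y :: l) = brk R (y :: l) := by
  rw [brk, if_pos h, zero_add]

theorem brk_neg {R : V → V → Prop} {x y : V} (h : ¬ R x y) (l : List V) :
    brk R (x :: y :: l) = 1 + brk R (y :: l) := by
  rw [brk, if_neg h]

theorem brk_cons_le (R : V → V → Prop) (x : V) (l : List V) : brk R (x :: l) ≤ 1 + brk R l := by
  rcases l with _ | ⟨y, l⟩
  · simp [brk]
  · by_cases h : R x y
    · rw [brk_pos h]
      omega
    · rw [brk_neg h]

theorem le_brk_cons (R : V → V → Prop) (x : V) (l : List V) : brk R l ≤ brk R (x :: l) := by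
  rcases l with _ | ⟨y, l⟩
  · simp [brk]
  · by_cases h : R x y
    · rw [brk_pos h]
    · rw [brk_neg h]
      omega

theorem brk_lt (R : V → V → Prop) (l : List V) (hl : l ≠ []) : brk R l + 1 ≤ l.length := by
  induction l with
  | nil => exact absurd rfl hl
  | cons x l ih =>
    rcases l with _ | ⟨y, l⟩
    · simp [brk]
    · have h1 := ih (by simp)
      have h2 := brk_cons_le R x (y :: l)
      simp only [List.length_cons] at h1 ⊢
      omega

theorem brk_take (R : V → V → Prop) (l : List V) (i : ℕ) : brk R (l.take i) ≤ brk R l := by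
  induction l generalizing i with
  | nil => simp
  | cons x l ih =>
    rcases i with _ | i
    · simp [brk]
    · rw [List.take_succ_cons]
      rcases l with _ | ⟨y, l⟩
      · simp
      · rcases i with _ | i
        · simp [brk]
        · have h1 := ih (i + 1)
          rw [List.take_succ_cons] at h1 ⊢
          by_cases h : R x y
          · rw [brk_pos h, brk_pos h]
            exact h1
          · rw [brk_neg h, brk_neg h]
            omega

theorem brk_mono {R R' : V → V → Prop} (h : ∀ x y, R x y → R' x y) (l : List V) :
    brk R' l ≤ brk R l := by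
  induction l with
  | nil => simp [brk]
  | cons x l ih =>
    rcases l with _ | ⟨y, l⟩
    · simp [brk]
    · by_cases h1 : R x y
      · rw [brk_pos h1, brk_pos (h _ _ h1)]
        exact ih
      · rw [brk_neg h1]
        have := brk_cons_le R' x (y :: l)
        omega

theorem brk_map {W : Type} {R : V → V → Prop} {R' : W → W → Prop} (f : V → W)
    (h : ∀ x y, R x y → R' (f x) (f y)) (l : List V) : brk R' (l.map f) ≤ brk R l := by
  induction l with
  | nil => simp [brk]
  | cons x l ih =>
    rcases l with _ | ⟨y, l⟩
    · simp [brk]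
    · simp only [List.map_cons] at ih ⊢
      by_cases h1 : R x y
      · rw [brk_pos h1, brk_pos (h _ _ h1)]
        exact ih
      · rw [brk_neg h1]
        have := brk_cons_le R' (f x) (f y :: l.map f)
        omega

theorem brk_append (R : V → V → Prop) (l l' : List V) :
    brk R (l ++ l') ≤ brk R l + brk R l' + 1 := by
  induction l with
  | nil => simp [brk]
  | cons x l ih =>
    rcases l with _ | ⟨y, l⟩
    · have := brk_cons_le R x l'
      simp only [List.singleton_append, brk_single]
      omega
    · simp only [List.cons_append] at ih ⊢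
      by_cases h1 : R x y
      · rw [brk_pos h1, brk_pos h1]
        exact ih
      · rw [brk_neg h1, brk_neg h1]
        omega

theorem brk_chain {R : V → V → Prop} (l : List V) (h : l.IsChain R) : brk R l = 0 := by
  induction l with
  | nil => rfl
  | cons x l ih =>
    rcases l with _ | ⟨y, l⟩
    · rfl
    · rw [List.isChain_cons_cons] at h
      rw [brk_pos h.1]
      exact ih h.2

end brk

section inter

variable {V : Type} (G : SimpleGraph V)

/-- **Interleaving.** -/
theorem inter : ∀ (L Bs : List V), L ≠ [] → brk G.Adj L ≤ Bs.length → Bs.length + 1 ≤ L.length →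
    (∀ x ∈ L, ∀ b ∈ Bs, G.Adj x b) →
    ∃ M : List V, M.Perm (L ++ Bs) ∧ M.IsChain G.Adj ∧ M.head? = L.head? ∧
      ∀ z ∈ M.getLast?, z ∈ L := by
  intro L
  induction L with
  | nil =>
    intro Bs h
    exact absurd rfl h
  | cons x L ih =>
    intro Bs _ h1 h2 h3
    rcases L with _ | ⟨y, l⟩
    · have h4 : Bs = [] := by
        simp only [List.length_cons, List.length_nil] at h2
        exact List.eq_nil_of_length_eq_zero (by omega)
      subst h4
      exact ⟨[x], by simp, by simp, rfl, by simp⟩
    · by_cases hins : G.Adj x y ∧ Bs.length + 1 ≤ (y :: l).length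
      · obtain ⟨hxy, h4⟩ := hins
        rw [brk_pos hxy] at h1
        obtain ⟨M, m1, m2, m3, m4⟩ := ih Bs (by simp) h1 h4
          (fun z hz b hb => h3 z (List.mem_cons_of_mem _ hz) b hb)
        have hM : M ≠ [] := by
          rintro rfl
          simp at m3
        refine ⟨x :: M, ?_, ?_, rfl, ?_⟩
        · exact m1.cons x
        · rw [List.isChain_cons]
          refine ⟨?_, m2⟩
          intro z hz
          rw [m3] at hz
          simp only [List.head?_cons, Option.mem_some_iff] at hz
          rw [← hz]
          exact hxy
        · intro z hz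
          rw [List.getLast?_cons_of_ne_nil hM] at hz
          exact List.mem_cons_of_mem _ (m4 z hz)
      · have hB : Bs ≠ [] := by
          rintro rfl
          apply hins
          refine ⟨?_, by simp⟩
          by_contra hxy
          rw [brk_neg hxy] at h1
          simp at h1
        obtain ⟨b, Bs', rfl⟩ := List.exists_cons_of_ne_nil hB
        have h4 : brk G.Adj (y :: l) ≤ Bs'.length := by
          by_cases hxy : G.Adj x y
          · have h5 : ¬ ((b :: Bs').length + 1 ≤ (y :: l).length) := fun h => hins ⟨hxy, h⟩
            have h6 := brk_lt G.Adj (y :: l) (by simp)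
            simp only [List.length_cons] at h5 h6 ⊢
            omega
          · rw [brk_neg hxy] at h1
            simp only [List.length_cons] at h1
            omega
        have h5 : Bs'.length + 1 ≤ (y :: l).length := by
          simp only [List.length_cons] at h2 ⊢
          omega
        obtain ⟨M, m1, m2, m3, m4⟩ := ih Bs' (by simp) h4 h5
          (fun z hz c hc => h3 z (List.mem_cons_of_mem _ hz) c (List.mem_cons_of_mem _ hc))
        have hM : M ≠ [] := by
          rintro rfl
          simp at m3
        refine ⟨x :: b :: M, ?_, ?_, rfl, ?_⟩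
        · have h6 : (x :: y :: l) ++ b :: Bs' = x :: ((y :: l) ++ b :: Bs') := rfl
          rw [h6]
          refine List.Perm.cons x ?_
          exact (m1.cons b).trans List.perm_middle.symm
        · rw [List.isChain_cons_cons, List.isChain_cons]
          refine ⟨h3 x (by simp) b (by simp), ?_, m2⟩
          intro z hz
          rw [m3] at hz
          simp only [List.head?_cons, Option.mem_some_iff] at hz
          rw [← hz]
          exact (h3 y (by simp) b (by simp)).symm
        · intro z hz
          rw [List.getLast?_cons_cons, List.getLast?_cons_of_ne_nil hM] at hz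
          exact List.mem_cons_of_mem _ (m4 z hz)

/-- a segment of prescribed length -/
theorem seg (L Bs : List V) (hnd : (L ++ Bs).Nodup) (h2 : Bs.length + 1 ≤ L.length)
    (h3 : ∀ x ∈ L, ∀ b ∈ Bs, G.Adj x b) (r : ℕ) (hr1 : 1 ≤ r) (hr2 : r ≤ L.length + Bs.length)
    (hor : (r % 2 = 1 ∧ r ≤ 2 * Bs.length + 1) ∨
      (brk G.Adj L ≤ Bs.length ∧ ∃ x y l, L = x :: y :: l ∧ G.Adj x y)) :
    ∃ M : List V, M.Nodup ∧ M.length = r ∧ (∀ z ∈ M, z ∈ L ∨ z ∈ Bs) ∧ M.IsChain G.Adj ∧
      (∃ α ∈ L, M.head? = some α) ∧ (∃ β ∈ L, M.getLast? = some β) := by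
  -- the numbers of elements from the two lists
  obtain ⟨i, j, hij, hj, hi, hji, hbr⟩ : ∃ i j, i + j = r ∧ j ≤ Bs.length ∧ i ≤ L.length ∧
      j + 1 ≤ i ∧ brk G.Adj (L.take i) ≤ j := by
    rcases Nat.lt_or_ge Bs.length ((r - 1) / 2) with h | h
    · refine ⟨r - Bs.length, Bs.length, by omega, le_rfl, by omega, by omega, ?_⟩
      rcases hor with h4 | h4
      · omega
      · exact (brk_take _ _ _).trans h4.1
    · rcases Nat.even_or_odd' r with ⟨k, hk | hk⟩
      · rcases hor with h4 | ⟨h4, x, y, l, hL, hxy⟩
        · omega
        · refine ⟨k + 1, k - 1, by omega, by omega, ?_, by omega, ?_⟩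
          · rcases Nat.lt_or_ge (k - 1) Bs.length with h5 | h5
            · omega
            · omega
          · obtain ⟨k', rfl⟩ : ∃ k', k = k' + 1 := ⟨k - 1, by omega⟩
            rw [hL, List.take_succ_cons, List.take_succ_cons, brk_pos hxy]
            have h6 := brk_lt G.Adj (y :: l.take k') (by simp)
            rw [List.length_cons] at h6
            have h7 : (l.take k').length ≤ k' := by simp
            omega
      · refine ⟨k + 1, k, by omega, by omega, by omega, by omega, ?_⟩
        have hL : L.take (k + 1) ≠ [] := by
          intro h5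
          have h6 := congrArg List.length h5
          rw [List.length_take, List.length_nil] at h6
          omega
        have h6 := brk_lt G.Adj (L.take (k + 1)) hL
        have h7 : (L.take (k + 1)).length ≤ k + 1 := by simp
        omega
  have hL1 : (L.take i).length = i := by
    rw [List.length_take]
    omega
  have hB1 : (Bs.take j).length = j := by
    rw [List.length_take]
    omega
  have hne : L.take i ≠ [] := by
    intro h
    rw [h] at hL1
    simp at hL1
    omega
  obtain ⟨M, m1, m2, m3, m4⟩ := inter G (L.take i) (Bs.take j) hne (by rw [hB1]; exact hbr)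
    (by rw [hB1, hL1]; exact hji)
    (fun x hx b hb => h3 x (List.mem_of_mem_take hx) b (List.mem_of_mem_take hb))
  have hsub : (L.take i ++ Bs.take j).Nodup := by
    rw [List.nodup_append] at hnd ⊢
    refine ⟨hnd.1.sublist (List.take_sublist _ _), hnd.2.1.sublist (List.take_sublist _ _), ?_⟩
    intro x hx y hy
    exact hnd.2.2 x (List.mem_of_mem_take hx) y (List.mem_of_mem_take hy)
  have hM : M ≠ [] := by
    intro h
    rw [h, List.head?_nil] at m3
    exact hne (List.head?_eq_none_iff.1 m3.symm)
  refine ⟨M, m1.nodup_iff.2 hsub, ?_, ?_, m2, ?_, ?_⟩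
  · rw [m1.length_eq, List.length_append, hL1, hB1, hij]
  · intro z hz
    rw [m1.mem_iff, List.mem_append] at hz
    exact hz.imp List.mem_of_mem_take List.mem_of_mem_take
  · rw [List.head?_eq_some_head hne] at m3
    exact ⟨_, List.mem_of_mem_take (List.head_mem hne), m3⟩
  · refine ⟨M.getLast hM, ?_, List.getLast?_eq_getLast_of_ne_nil hM⟩
    exact List.mem_of_mem_take (m4 _ (List.getLast?_eq_getLast_of_ne_nil hM))

end inter

section cover

open Pool.Agent.TH669.KP (Stp ham_closure)

variable {A : Type} [AddCommGroup A] [Fintype A]

/-- a group is covered by as many paths as there are cosets of the subgroup generated by the steps -/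
theorem cover (T : Set A) : ∃ L : List A, L.Nodup ∧ (∀ x, x ∈ L) ∧
    brk (Stp T) L + 1 ≤ Nat.card (A ⧸ AddSubgroup.closure T) ∧
    (AddSubgroup.closure T ≠ ⊥ → ∃ x y l, L = x :: y :: l ∧ Stp T x y) := by
  classical
  obtain ⟨L0, h1, h2, h3, h4⟩ := ham_closure T.toFinset
  rw [Set.coe_toFinset] at h3 h4
  set H := AddSubgroup.closure T with hH
  set f : A → List A := fun r => L0.map (fun z => z + r) with hf
  set reps : List A := (Finset.univ : Finset (A ⧸ H)).toList.map Quotient.out with hreps
  have hfmem : ∀ r x, x ∈ f r ↔ x - r ∈ H := by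
    intro r x
    rw [hf, List.mem_map]
    constructor
    · rintro ⟨z, hz, rfl⟩
      rw [add_sub_cancel_right, ← h3]
      exact hz
    · intro h
      exact ⟨x - r, (h3 _).2 h, sub_add_cancel _ _⟩
  have hchain : ∀ r, (f r).IsChain (Stp T) := by
    intro r
    refine List.isChain_map_of_isChain _ ?_ h4
    intro x y h
    unfold Stp at h ⊢
    rw [add_sub_add_right_eq_sub, add_sub_add_right_eq_sub]
    exact h
  have hlen : reps.length = Nat.card (A ⧸ H) := by
    rw [hreps, List.length_map, Finset.length_toList, Finset.card_univ, Nat.card_eq_fintype_card]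
    exact Fintype.card_congr (Equiv.refl (A ⧸ H))
  have hreps_ne : reps ≠ [] := by
    intro h
    rw [h, List.length_nil] at hlen
    exact absurd hlen.symm Nat.card_pos.ne'
  refine ⟨reps.flatMap f, ?_, ?_, ?_, ?_⟩
  · rw [List.nodup_flatMap]
    refine ⟨fun r _ => h1.map (add_left_injective r), ?_⟩
    rw [hreps, List.pairwise_map]
    refine (Finset.nodup_toList _).imp ?_
    intro c c' hcc
    rw [Function.onFun, List.disjoint_left]
    intro x hx hx'
    rw [hfmem] at hx hx'
    apply hcc
    have h5 : (QuotientAddGroup.mk (Quotient.out c) : A ⧸ H) = QuotientAddGroup.mk (Quotient.out c') := by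
      rw [QuotientAddGroup.eq]
      have : -Quotient.out c + Quotient.out c' =
          (x - Quotient.out c) - (x - Quotient.out c') := by abel
      rw [this]
      exact H.sub_mem hx hx'
    have e1 : (QuotientAddGroup.mk (Quotient.out c) : A ⧸ H) = c := Quotient.out_eq' c
    have e2 : (QuotientAddGroup.mk (Quotient.out c') : A ⧸ H) = c' := Quotient.out_eq' c'
    rw [e1, e2] at h5
    exact h5
  · intro x
    rw [List.mem_flatMap]
    refine ⟨Quotient.out (QuotientAddGroup.mk x : A ⧸ H), ?_, ?_⟩
    · rw [hreps, List.mem_map]
      exact ⟨_, Finset.mem_toList.2 (Finset.mem_univ _), rfl⟩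
    · rw [hfmem]
      have e1 : (QuotientAddGroup.mk (Quotient.out (QuotientAddGroup.mk x : A ⧸ H)) : A ⧸ H) =
          QuotientAddGroup.mk x := Quotient.out_eq' _
      rw [QuotientAddGroup.eq] at e1
      rwa [neg_add_eq_sub] at e1
  · rw [← hlen]
    have key : ∀ R : List A, R ≠ [] → brk (Stp T) (R.flatMap f) + 1 ≤ R.length := by
      intro R
      induction R with
      | nil =>
        intro h
        exact absurd rfl h
      | cons r R ih =>
        intro _
        rcases R with _ | ⟨r', R⟩
        · simp only [List.flatMap_cons, List.flatMap_nil, List.append_nil, List.length_cons,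
            List.length_nil]
          rw [brk_chain _ (hchain r)]
        · have h5 := ih (by simp)
          rw [List.flatMap_cons, List.length_cons]
          have h6 := brk_append (Stp T) (f r) ((r' :: R).flatMap f)
          rw [brk_chain _ (hchain r)] at h6
          omega
    exact key reps hreps_ne
  · intro hbot
    obtain ⟨r, R, hR⟩ := List.exists_cons_of_ne_nil hreps_ne
    rcases L0 with _ | ⟨x, L1⟩
    · simp at h2
    rcases L1 with _ | ⟨y, L2⟩
    · exfalso
      apply hbot
      rw [eq_bot_iff]
      intro z hz
      rw [AddSubgroup.mem_bot]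
      have hx0 : x = 0 := by simpa using h2
      rw [← h3] at hz
      simpa [hx0] using hz
    · refine ⟨x + r, y + r, L2.map (fun z => z + r) ++ R.flatMap f, ?_, ?_⟩
      · rw [hR, List.flatMap_cons, hf]
        simp
      · rw [List.isChain_cons_cons] at h4
        have h5 := h4.1
        unfold Stp at h5 ⊢
        rw [add_sub_add_right_eq_sub, add_sub_add_right_eq_sub]
        exact h5

end cover

section cycles

variable {V : Type} (G : SimpleGraph V)

theorem cyc_of_fun (t : ℕ) (ht : 1 ≤ t) (f : ℕ → V)
    (hinj : ∀ i j, i < t → j < t → f i = f j → i = j)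
    (hadj : ∀ i, i + 1 < t → G.Adj (f i) (f (i + 1))) (hcl : G.Adj (f (t - 1)) (f 0)) :
    (SimpleGraph.cycleGraph t).IsContained G := by
  refine ⟨⟨⟨fun i => f i.val, ?_⟩, ?_⟩⟩
  · have key : ∀ u v : Fin t, (v - u).val = 1 → G.Adj (f u.val) (f v.val) := by
      intro u v h
      have hu := u.2
      have hv := v.2
      rw [Fin.sub_def] at h
      simp only at h
      rcases Nat.lt_or_ge (t - u.val + v.val) t with h1 | h1
      · rw [Nat.mod_eq_of_lt h1] at h
        have h2 : v.val = 0 := by omega
        have h3 : u.val = t - 1 := by omega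
        rw [h2, h3]
        exact hcl
      · rw [Nat.mod_eq_sub_mod h1] at h
        rcases Nat.lt_or_ge (t - u.val + v.val - t) t with h2 | h2
        · rw [Nat.mod_eq_of_lt h2] at h
          have h3 : v.val = u.val + 1 := by omega
          rw [h3]
          exact hadj _ (by omega)
        · omega
    intro u v h
    rw [SimpleGraph.cycleGraph_adj'] at h
    rcases h with h | h
    · exact (key v u h).symm
    · exact key u v h
  · intro u v h
    exact Fin.ext (hinj _ _ u.2 v.2 h)

/-- a cycle given by a list -/
theorem cyc_of_list (L : List V) (h1 : L.Nodup) (h2 : L.IsChain G.Adj) {α β : V}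
    (h3 : L.head? = some α) (h4 : L.getLast? = some β) (h5 : G.Adj β α) :
    (SimpleGraph.cycleGraph L.length).IsContained G := by
  have hne : L ≠ [] := by
    rintro rfl
    simp at h3
  have hlen : 1 ≤ L.length := List.length_pos_of_ne_nil hne
  refine cyc_of_fun G L.length hlen (fun i => L.getD i α) ?_ ?_ ?_
  · intro i j hi hj h
    simp only [List.getD_eq_getElem _ _ hi, List.getD_eq_getElem _ _ hj] at h
    exact (List.Nodup.getElem_inj_iff h1).1 h
  · intro i hi
    simp only [List.getD_eq_getElem _ _ hi, List.getD_eq_getElem _ _ (Nat.lt_of_succ_lt hi)]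
    rw [List.isChain_iff_getElem] at h2
    exact h2 i hi
  · have e1 : L.getD (L.length - 1) α = β := by
      rw [List.getD_eq_getElem _ _ (by omega)]
      rw [List.getLast?_eq_getElem?, List.getElem?_eq_getElem (by omega)] at h4
      simpa using h4
    have e2 : L.getD 0 α = α := by
      rw [List.getD_eq_getElem _ _ (by omega)]
      rw [List.head?_eq_getElem?, List.getElem?_eq_getElem (by omega)] at h3
      simpa using h3
    simp only [e1, e2]
    exact h5

end cycles

end Run7.h972.Ham
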