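import Mathlib

set_option autoImplicit false

/-!
# Coprime squarefree decompositions of small numbers, by bit masks
-/

namespace Run7.h972.Mask

/-- the number whose binary digits `1` are at the first `t` multiples of `d` -/
def mu (d t : ℕ) : ℕ := (2 ^ (d * t) - 1) / (2 ^ d - 1)

theorem mu_succ (d t : ℕ) (hd : 0 < d) : mu d (t + 1) = 2 ^ d * mu d t + 1 := by
  unfold mu
  have h1 : 2 ≤ 2 ^ d := by
    calc 2 = 2 ^ 1 := (pow_one 2).symm
      _ ≤ 2 ^ d := Nat.pow_le_pow_right (by norm_num) hd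
  have hg : ∀ s, (2 ^ (d * s) - 1) / (2 ^ d - 1) = ∑ k ∈ Finset.range s, (2 ^ d) ^ k := by
    intro s
    rw [Nat.geomSum_eq h1, pow_mul]
  rw [hg, hg, Finset.sum_range_succ', pow_zero, Finset.mul_sum]
  congr 1
  exact Finset.sum_congr rfl fun k _ => by rw [pow_succ]; ring

theorem testBit_mu (d : ℕ) (hd : 0 < d) : ∀ t i : ℕ, (mu d t).testBit i = true ↔ d ∣ i ∧ i < d * t := by
  intro t
  induction t with
  | zero =>
    intro i
    simp [mu]
  | succ t ih =>
    intro i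
    have h1 : 1 < 2 ^ d := Nat.one_lt_two_pow hd.ne'
    rw [mu_succ d t hd, Nat.testBit_two_pow_mul_add _ h1]
    split_ifs with h
    · rw [Nat.testBit_one_eq_true_iff_self_eq_zero]
      constructor
      · rintro rfl
        exact ⟨dvd_zero _, by positivity⟩
      · rintro ⟨h2, _⟩
        exact Nat.eq_zero_of_dvd_of_lt h2 h
    · rw [ih]
      have h2 : d ≤ i := by omega
      rw [Nat.dvd_sub_iff_left h2 (dvd_refl d), Nat.mul_succ]
      constructor
      · rintro ⟨h3, h4⟩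
        exact ⟨h3, by omega⟩
      · rintro ⟨h3, h4⟩
        exact ⟨h3, by omega⟩

/-- mask of the numbers divisible by the square of one of `2, …, k + 1` -/
def nsq (L : ℕ) : ℕ → ℕ
  | 0 => 0
  | k + 1 => mu ((k + 2) ^ 2) (L / ((k + 2) ^ 2) + 1) ||| nsq L k

theorem testBit_nsq (L : ℕ) : ∀ k i x : ℕ, i < L → 2 ≤ x → x < k + 2 → x ^ 2 ∣ i →
    (nsq L k).testBit i = true := by
  intro k
  induction k with
  | zero =>
    intro i x _ h1 h2
    omega
  | succ k ih =>
    intro i x hi h1 h2 h3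
    rw [nsq, Nat.testBit_or, Bool.or_eq_true]
    rcases Nat.lt_or_ge x (k + 2) with h4 | h4
    · exact Or.inr (ih i x hi h1 h4 h3)
    · have h5 : x = k + 2 := by omega
      subst h5
      left
      rw [testBit_mu _ (by positivity)]
      refine ⟨h3, ?_⟩
      have h6 := Nat.lt_mul_div_succ L (show 0 < (k + 2) ^ 2 by positivity)
      omega

/-- the conjunction over the list of the masks of failure -/
def fl (S L : ℕ) : List ℕ → ℕ
  | [] => 2 ^ L - 1
  | q :: qs => (S <<< q ||| mu q (L / q + 1)) &&& fl S L qs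

theorem fl_spec (S L : ℕ) (qs : List ℕ) (hq : ∀ q ∈ qs, 0 < q) (i : ℕ) (hi : i < L)
    (h : (fl S L qs).testBit i = false) :
    ∃ q ∈ qs, ¬ q ∣ i ∧ ¬ (q ≤ i ∧ S.testBit (i - q) = true) := by
  induction qs with
  | nil =>
    rw [fl, Nat.testBit_two_pow_sub_one] at h
    simp [hi] at h
  | cons q qs ih =>
    rw [fl, Nat.testBit_and, Bool.and_eq_false_iff] at h
    rcases h with h | h
    · refine ⟨q, List.mem_cons_self, ?_⟩
      rw [Nat.testBit_or, Bool.or_eq_false_iff, Nat.testBit_shiftLeft] at h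
      obtain ⟨h1, h2⟩ := h
      have hq0 : 0 < q := hq q List.mem_cons_self
      constructor
      · intro h3
        have h4 := (testBit_mu q hq0 (L / q + 1) i).2 ⟨h3, by
          have h6 := Nat.lt_mul_div_succ L hq0
          omega⟩
        rw [h4] at h2
        cases h2
      · rintro ⟨h3, h4⟩
        rw [h4] at h1
        simp [h3] at h1
    · obtain ⟨q', h1, h2⟩ := ih (fun q' hq' => hq q' (List.mem_cons_of_mem _ hq')) h
      exact ⟨q', List.mem_cons_of_mem _ h1, h2⟩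

/-- the primes used -/
def qs : List ℕ := [2, 3, 5, 7, 11, 13, 17, 19, 23, 29, 31, 37, 41, 43]

theorem check : ((fl (nsq (2 ^ 20) 1022) (2 ^ 20) qs) >>> 88 == 0) = true := by
  decide +kernel

theorem sqf_of {L m : ℕ} (K : ℕ) (hK : L ≤ (K + 2) ^ 2) (h0 : 0 < m) (hL : m < L)
    (h : ∀ x, 2 ≤ x → x < K + 2 → ¬ x ^ 2 ∣ m) : Squarefree m := by
  intro x hx
  rw [Nat.isUnit_iff]
  by_contra hx1
  have hx0 : x ≠ 0 := by
    rintro rfl
    rw [zero_mul, zero_dvd_iff] at hx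
    omega
  rw [← pow_two] at hx
  refine h x (by omega) ?_ hx
  have h1 : x ^ 2 < (K + 2) ^ 2 := lt_of_lt_of_le (lt_of_le_of_lt (Nat.le_of_dvd h0 hx) hL) hK
  exact lt_of_pow_lt_pow_left₀ 2 (Nat.zero_le _) h1

theorem qs_spec : ∀ q ∈ qs, Nat.Prime q ∧ q ≤ 43 := by
  intro q hq
  simp only [qs, List.mem_cons, List.not_mem_nil, or_false] at hq
  rcases hq with rfl | rfl | rfl | rfl | rfl | rfl | rfl | rfl | rfl | rfl | rfl | rfl | rfl | rfl <;>
    exact ⟨by norm_num, by norm_num⟩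

theorem medium (N : ℕ) (h1 : 88 ≤ N) (h2 : N < 2 ^ 20) : ∃ q, 2 ≤ q ∧ 2 * q + 2 ≤ N ∧
    Squarefree q ∧ Squarefree (N - q) ∧ Nat.Coprime q (N - q) := by
  have hc := check
  rw [beq_iff_eq] at hc
  have hb : (fl (nsq (2 ^ 20) 1022) (2 ^ 20) qs).testBit N = false := by
    have h3 : ((fl (nsq (2 ^ 20) 1022) (2 ^ 20) qs) >>> 88).testBit (N - 88) = false := by
      rw [hc, Nat.zero_testBit]
    rw [Nat.testBit_shiftRight] at h3
    rwa [show 88 + (N - 88) = N by omega] at h3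
  obtain ⟨q, hq, hqN, hq2⟩ := fl_spec _ _ qs (fun q hq => (qs_spec q hq).1.pos) N h2 hb
  obtain ⟨hqp, hq43⟩ := qs_spec q hq
  refine ⟨q, hqp.two_le, by omega, hqp.prime.squarefree, ?_, ?_⟩
  · refine sqf_of 1022 (L := 2 ^ 20) (by norm_num) (by omega) (by omega) ?_
    intro x hx1 hx2 hx3
    exact hq2 ⟨by omega, testBit_nsq _ 1022 (N - q) x (by omega) hx1 hx2 hx3⟩
  · rw [Nat.Prime.coprime_iff_not_dvd hqp]
    intro h
    apply hqN
    have := (Nat.dvd_sub_iff_left (by omega : q ≤ N) (dvd_refl q)).1 h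
    exact this

theorem tiny : ∀ N < 88, 12 ≤ N → ∃ q ∈ [2, 3, 5, 7], 2 * q + 2 ≤ N ∧ ¬ q ∣ N ∧
    ∀ x < 10, 2 ≤ x → ¬ x ^ 2 ∣ N - q := by
  decide +kernel

theorem small (N : ℕ) (h1 : 12 ≤ N) (h2 : N < 2 ^ 20) : ∃ q, 2 ≤ q ∧ 2 * q + 2 ≤ N ∧
    Squarefree q ∧ Squarefree (N - q) ∧ Nat.Coprime q (N - q) := by
  rcases Nat.lt_or_ge N 88 with h | h
  · obtain ⟨q, hq, h3, h4, h5⟩ := tiny N h h1
    have hqp : Nat.Prime q ∧ q ≤ 7 := by
      simp only [List.mem_cons, List.not_mem_nil, or_false] at hq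
      rcases hq with rfl | rfl | rfl | rfl <;> exact ⟨by norm_num, by norm_num⟩
    refine ⟨q, hqp.1.two_le, h3, hqp.1.prime.squarefree, ?_, ?_⟩
    · exact sqf_of 8 (L := 100) (by norm_num) (by omega) (by omega) fun x hx1 hx2 => h5 x hx2 hx1
    · rw [Nat.Prime.coprime_iff_not_dvd hqp.1]
      intro h'
      exact h4 ((Nat.dvd_sub_iff_left (by omega : q ≤ N) (dvd_refl q)).1 h')
  · exact medium N h h2

end Run7.h972.Mask
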