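import Pool.Agent.Run7.h972.Eval
import Pool.Agent.Run7.h972.Mask
import Pool.Agent.Run7.h972.Large

set_option autoImplicit false

/-!
# Between pancyclic and 1-tough every property is evasive, at least 14 vertices
-/

namespace Run7.h972.Ham

open Run7.h972.Rel1 (GP1 gp1_of_gp)
open Pool.Agent.H119R2.Kp (GP PV)

/-- every `N ≥ 12` is the sum of two coprime squarefree numbers which are not too close -/
theorem decomposition (N : ℕ) (hN : 12 ≤ N) : ∃ b, 2 ≤ b ∧ 2 * b + 2 ≤ N ∧
    Squarefree b ∧ Squarefree (N - b) ∧ Nat.Coprime b (N - b) := by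
  rcases Nat.lt_or_ge N (2 ^ 20) with h | h
  · exact Mask.small N hN h
  · exact Large.large N h

theorem sq_order (m : ℕ) [NeZero m] (hm : Squarefree m) (x : ZMod m) :
    Squarefree (addOrderOf x) := by
  refine hm.squarefree_of_dvd ?_
  have h := addOrderOf_dvd_card (x := x)
  rwa [ZMod.card] at h

theorem gen_prod (a b : ℕ) [NeZero a] [NeZero b] (hab : Nat.Coprime b a) (t : ZMod a × ZMod b) :
    t ∈ AddSubgroup.closure (insert ((1, 1) : ZMod a × ZMod b)
      (Set.range (fun i : Empty => (i.elim : ZMod a × ZMod b)))) := by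
  obtain ⟨k, h1, h2⟩ := Nat.chineseRemainder hab.symm t.1.val t.2.val
  have h3 : t = k • ((1, 1) : ZMod a × ZMod b) := by
    rw [Prod.smul_mk]
    refine Prod.ext ?_ ?_
    · simp only [nsmul_eq_mul, mul_one]
      rw [(ZMod.natCast_eq_natCast_iff _ _ _).2 h1, ZMod.natCast_zmod_val]
    · simp only [nsmul_eq_mul, mul_one]
      rw [(ZMod.natCast_eq_natCast_iff _ _ _).2 h2, ZMod.natCast_zmod_val]
  rw [h3]
  exact AddSubgroup.nsmul_mem _ (AddSubgroup.subset_closure (Set.mem_insert _ _)) _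

theorem cyc_top {n t : ℕ} (ht : t ≤ n) :
    (SimpleGraph.cycleGraph t).IsContained (⊤ : SimpleGraph (Fin n)) := by
  refine ⟨⟨⟨Fin.castLE ht, ?_⟩, Fin.castLE_injective ht⟩⟩
  intro u v huv
  rw [SimpleGraph.top_adj]
  exact fun h => huv.ne (Fin.castLE_injective ht h)

theorem obs_bot {n : ℕ} (hn : 2 ≤ n) : Obs (⊥ : SimpleGraph (Fin n)) := by
  refine ⟨∅, Fin n, inferInstance, id, fun k => ⟨k, by simp, rfl⟩, ?_, ?_, ?_⟩
  · intro u v _ _ h
    exact h.elim
  · rw [Nat.card_eq_fintype_card, Fintype.card_fin]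
    omega
  · rw [Nat.card_eq_fintype_card, Fintype.card_fin, Finset.card_empty]
    omega

theorem main14 {n : ℕ} (hn : 14 ≤ n) {Q : SimpleGraph (Fin n) → Prop}
    (hQ : GP n (n.choose 2 - 1) Q)
    (hlow : ∀ H : SimpleGraph (Fin n),
      (∀ t, 3 ≤ t → t ≤ n → (SimpleGraph.cycleGraph t).IsContained H) → Q H)
    (hup : ∀ H, Q H → OneTough H) : False := by
  obtain ⟨b, hb2, hbN, hsb, hsa, hcop⟩ := decomposition (n - 2) (by omega)
  set a := n - 2 - b with ha
  have hch : n ≤ n.choose 2 := by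
    have h1 : n.choose 2 = n * (n - 1) / 2 := Nat.choose_two_right n
    rw [h1, Nat.le_div_iff_mul_le (by norm_num)]
    exact Nat.mul_le_mul_left n (by omega)
  have hQ1 : GP1 n (n.choose 2 - 2) Q := by
    refine gp1_of_gp ?_ ⟨⊤, hlow _ fun t _ h => cyc_top h⟩ ⟨⊥, fun h => ?_⟩
    · rwa [show n.choose 2 - 2 + 1 = n.choose 2 - 1 by omega]
    · exact (obs_bot (by omega)).not_tough (hup _ h)
  have : NeZero a := ⟨by omega⟩
  have : NeZero b := ⟨by omega⟩
  have : Fact (Nat.Prime 2) := ⟨Nat.prime_two⟩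
  refine two_blocks (A := ZMod a) (B := ZMod b) hQ1 hlow hup ?_ 2
    (fun i : Empty => (i.elim : ZMod a × ZMod b)) (1, 1) (fun i => i.elim)
    (gen_prod a b hcop) (by omega) (by rw [ZMod.card]; omega)
    (by rw [ZMod.card, ZMod.card]; omega) (sq_order a hsa) (sq_order b hsb)
  rw [Fintype.card_sum, Fintype.card_sum, Fintype.card_bool, ZMod.card, ZMod.card]
  omega

end Run7.h972.Ham
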