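import Pool.Agent.Run7.h972.Orb1
import Pool.Agent.TH669.KC.Model

set_option autoImplicit false
set_option linter.unusedSectionVars false

/-!
# Two adjacent fixed points and two blocks

The vertices are two fixed points `inl false`, `inl true`, which are adjacent, and two blocks, finite
abelian groups `A` and `B`, with translations.
-/

namespace Run7.h972.Ham

open Finset
open Run7.h972.Rel1 (GP1 rel_orb1)
open Pool.Agent.H119R2.Kp (GP PV)
open Pool.Agent.H119R2.Kp.RelAux (ED mem_ED card_ED)
open Pool.Agent.TH669.KP (sgn bit GR GR_adj)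
open Pool.Agent.TH669.KC (Cl cls cls_zero cls_of_ne cls_ne_none cls_neg cls_inj cls_surj)

section

variable (A B : Type) [AddCommGroup A] [DecidableEq A] [AddCommGroup B] [DecidableEq B]

/-- the vertices -/
abbrev VV : Type := Bool ⊕ (A ⊕ B)

/-- the orbits of pairs in the blocks -/
abbrev J0 (A B : Type) [AddCommGroup A] [AddCommGroup B] : Type := Unit ⊕ (Cl A ⊕ Cl B)

/-- the orbits of pairs, the pair of the fixed points excluded -/
abbrev JJ (A B : Type) [AddCommGroup A] [AddCommGroup B] : Type := (Bool × Bool) ⊕ J0 A B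

instance instJ0 : DecidableEq (J0 A B) := inferInstance

instance instJJ : DecidableEq (JJ A B) := @instDecidableEqSum _ _ _ (instJ0 A B)

variable {A B}

/-- the orbit of a pair -/
def ob : VV A B → VV A B → Option (JJ A B)
  | .inl _, .inl _ => none
  | .inl s, .inr (.inl _) => some (.inl (s, false))
  | .inl s, .inr (.inr _) => some (.inl (s, true))
  | .inr (.inl _), .inl s => some (.inl (s, false))
  | .inr (.inr _), .inl s => some (.inl (s, true))
  | .inr (.inl x), .inr (.inl y) => (cls (x - y)).map fun d => .inr (.inr (.inl d))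
  | .inr (.inl _), .inr (.inr _) => some (.inr (.inl ()))
  | .inr (.inr _), .inr (.inl _) => some (.inr (.inl ()))
  | .inr (.inr x), .inr (.inr y) => (cls (x - y)).map fun d => .inr (.inr (.inr d))

/-- the fixed edge -/
def Bs (A B : Type) : SimpleGraph (VV A B) where
  Adj
    | .inl s, .inl t => s ≠ t
    | _, _ => False
  symm := ⟨by
    rintro (s | x) (t | y) h
    · exact Ne.symm h
    · exact h
    · exact h
    · exact h⟩
  loopless := ⟨by
    rintro (s | x) h
    · exact h rfl
    · exact h⟩

theorem ob_symm (u v : VV A B) : ob u v = ob v u := by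
  rcases u with s | x | x <;> rcases v with t | y | y
  · rfl
  · rfl
  · rfl
  · rfl
  · simp only [ob]
    rw [← cls_neg, neg_sub]
  · rfl
  · rfl
  · rfl
  · simp only [ob]
    rw [← cls_neg, neg_sub]

theorem ob_self (u : VV A B) : ob u u = none := by
  rcases u with s | x | x
  · rfl
  · simp only [ob, sub_self, cls_zero]
    rfl
  · simp only [ob, sub_self, cls_zero]
    rfl

theorem ob_none (u v : VV A B) (huv : u ≠ v) (h : ob u v = none) : (Bs A B).Adj u v := by
  rcases u with s | x | x <;> rcases v with t | y | y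
  · exact fun h => huv (by rw [h])
  · simp [ob] at h
  · simp [ob] at h
  · simp [ob] at h
  · simp only [ob, Option.map_eq_none_iff] at h
    exact absurd h (cls_ne_none (sub_ne_zero.2 fun h => huv (by rw [h])))
  · simp [ob] at h
  · simp [ob] at h
  · simp [ob] at h
  · simp only [ob, Option.map_eq_none_iff] at h
    exact absurd h (cls_ne_none (sub_ne_zero.2 fun h => huv (by rw [h])))

theorem ob_base (u v : VV A B) (h : (Bs A B).Adj u v) : ob u v = none := by
  rcases u with s | x <;> rcases v with t | y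
  · rfl
  · exact h.elim
  · exact h.elim
  · exact h.elim

theorem ob_exists (j : JJ A B) : ∃ u v : VV A B, ob u v = some j := by
  rcases j with ⟨s, t⟩ | _ | d | d
  · cases t
    · exact ⟨.inl s, .inr (.inl 0), rfl⟩
    · exact ⟨.inl s, .inr (.inr 0), rfl⟩
  · exact ⟨.inr (.inl 0), .inr (.inr 0), rfl⟩
  · obtain ⟨z, hz⟩ := cls_surj d
    refine ⟨.inr (.inl z), .inr (.inl 0), ?_⟩
    simp only [ob, sub_zero, hz]
    rfl
  · obtain ⟨z, hz⟩ := cls_surj d
    refine ⟨.inr (.inr z), .inr (.inr 0), ?_⟩
    simp only [ob, sub_zero, hz]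
    rfl

/-! ### translations -/

/-- translation -/
def ts (t : A × B) : Equiv.Perm (VV A B) :=
  Equiv.sumCongr (Equiv.refl _) (Equiv.sumCongr (Equiv.addRight t.1) (Equiv.addRight t.2))

theorem ts_0 (t : A × B) (s : Bool) : ts t (.inl s) = .inl s := rfl

theorem ts_1 (t : A × B) (x : A) : ts t (.inr (.inl x)) = .inr (.inl (x + t.1)) := rfl

theorem ts_2 (t : A × B) (x : B) : ts t (.inr (.inr x)) = .inr (.inr (x + t.2)) := rfl

theorem ts_add (t t' : A × B) : ts (t + t') = ts t * ts t' := by
  ext1 u
  rw [Equiv.Perm.mul_apply]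
  rcases u with s | x | x
  · rfl
  · rw [ts_1, ts_1, ts_1, Prod.fst_add, add_comm t.1, add_assoc]
  · rw [ts_2, ts_2, ts_2, Prod.snd_add, add_comm t.2, add_assoc]

theorem ts_zero : ts (0 : A × B) = 1 := by
  ext1 u
  rcases u with s | x | x
  · rfl
  · rw [ts_1, Prod.fst_zero, add_zero]
    rfl
  · rw [ts_2, Prod.snd_zero, add_zero]
    rfl

theorem ts_nsmul (t : A × B) (n : ℕ) : ts (n • t) = ts t ^ n := by
  induction n with
  | zero => rw [zero_smul, ts_zero, pow_zero]
  | succ n ih => rw [succ_nsmul, ts_add, ih, pow_succ]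

theorem ts_comm (t t' : A × B) : ts t * ts t' = ts t' * ts t := by
  rw [← ts_add, ← ts_add, add_comm]

theorem ob_ts (t : A × B) (u v : VV A B) : ob (ts t u) (ts t v) = ob u v := by
  rcases u with s | x | x <;> rcases v with s' | y | y
  · rfl
  · rfl
  · rfl
  · rfl
  · simp only [ts_1, ob, add_sub_add_right_eq_sub]
  · rfl
  · rfl
  · rfl
  · simp only [ts_2, ob, add_sub_add_right_eq_sub]

theorem bs_ts (t : A × B) (u v : VV A B) (h : (Bs A B).Adj u v) :
    (Bs A B).Adj (ts t u) (ts t v) := by
  rcases u with s | x <;> rcases v with s' | y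
  · exact h
  · exact h.elim
  · exact h.elim
  · exact h.elim

/-- two points of a group with the same difference, up to sign -/
theorem match_diff {G : Type} [AddCommGroup G] {x y x' y' : G} (h : x - y = x' - y' ∨ x - y = -(x' - y')) :
    ∃ t : G, (x + t = x' ∧ y + t = y') ∨ (x + t = y' ∧ y + t = x') := by
  rcases h with h | h
  · refine ⟨x' - x, Or.inl ⟨by abel, ?_⟩⟩
    have h1 : y = x - (x - y) := by abel
    rw [h1, h]
    abel
  · refine ⟨y' - x, Or.inr ⟨by abel, ?_⟩⟩
    have h1 : y = x - (x - y) := by abel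
    rw [h1, h]
    abel

/-- transitivity on the orbits of the group of all translations -/
theorem ob_trans (j : JJ A B) (u v u' v' : VV A B) (h : ob u v = some j) (h' : ob u' v' = some j) :
    ∃ t : A × B, (ts t u = u' ∧ ts t v = v') ∨ (ts t u = v' ∧ ts t v = u') := by
  have inj1 : ∀ (o : Option (Cl A)) (j : JJ A B), (o.map fun d => (.inr (.inr (.inl d)) : JJ A B)) =
      some j → ∃ d, o = some d ∧ j = .inr (.inr (.inl d)) := by
    intro o j h
    rw [Option.map_eq_some_iff] at h
    obtain ⟨d, h1, h2⟩ := h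
    exact ⟨d, h1, h2.symm⟩
  have inj2 : ∀ (o : Option (Cl B)) (j : JJ A B), (o.map fun d => (.inr (.inr (.inr d)) : JJ A B)) =
      some j → ∃ d, o = some d ∧ j = .inr (.inr (.inr d)) := by
    intro o j h
    rw [Option.map_eq_some_iff] at h
    obtain ⟨d, h1, h2⟩ := h
    exact ⟨d, h1, h2.symm⟩
  rcases u with s | x | x <;> rcases v with t | y | y
  · simp [ob] at h
  · simp only [ob, Option.some.injEq] at h
    subst h
    rcases u' with s' | x' | x' <;> rcases v' with t' | y' | y'
    · simp [ob] at h'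
    · simp only [ob, Option.some.injEq, Sum.inl.injEq, Prod.mk.injEq, and_true] at h'
      subst h'
      refine ⟨(y' - y, 0), Or.inl ⟨rfl, ?_⟩⟩
      rw [ts_1, add_sub_cancel]
    · simp [ob] at h'
    · simp only [ob, Option.some.injEq, Sum.inl.injEq, Prod.mk.injEq, and_true] at h'
      subst h'
      refine ⟨(x' - y, 0), Or.inr ⟨rfl, ?_⟩⟩
      rw [ts_1, add_sub_cancel]
    · obtain ⟨d, h1, h2⟩ := inj1 _ _ h'
      cases h2
    · simp [ob] at h'
    · simp [ob] at h'
    · simp [ob] at h'
    · obtain ⟨d, h1, h2⟩ := inj2 _ _ h'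
      cases h2
  · simp only [ob, Option.some.injEq] at h
    subst h
    rcases u' with s' | x' | x' <;> rcases v' with t' | y' | y'
    · simp [ob] at h'
    · simp [ob] at h'
    · simp only [ob, Option.some.injEq, Sum.inl.injEq, Prod.mk.injEq, and_true] at h'
      subst h'
      refine ⟨(0, y' - y), Or.inl ⟨rfl, ?_⟩⟩
      rw [ts_2, add_sub_cancel]
    · simp [ob] at h'
    · obtain ⟨d, h1, h2⟩ := inj1 _ _ h'
      cases h2
    · simp [ob] at h'
    · simp only [ob, Option.some.injEq, Sum.inl.injEq, Prod.mk.injEq, and_true] at h'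
      subst h'
      refine ⟨(0, x' - y), Or.inr ⟨rfl, ?_⟩⟩
      rw [ts_2, add_sub_cancel]
    · simp [ob] at h'
    · obtain ⟨d, h1, h2⟩ := inj2 _ _ h'
      cases h2
  · simp only [ob, Option.some.injEq] at h
    subst h
    rcases u' with s' | x' | x' <;> rcases v' with t' | y' | y'
    · simp [ob] at h'
    · simp only [ob, Option.some.injEq, Sum.inl.injEq, Prod.mk.injEq, and_true] at h'
      subst h'
      refine ⟨(y' - x, 0), Or.inr ⟨?_, rfl⟩⟩
      rw [ts_1, add_sub_cancel]
    · simp [ob] at h'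
    · simp only [ob, Option.some.injEq, Sum.inl.injEq, Prod.mk.injEq, and_true] at h'
      subst h'
      refine ⟨(x' - x, 0), Or.inl ⟨?_, rfl⟩⟩
      rw [ts_1, add_sub_cancel]
    · obtain ⟨d, h1, h2⟩ := inj1 _ _ h'
      cases h2
    · simp [ob] at h'
    · simp [ob] at h'
    · simp [ob] at h'
    · obtain ⟨d, h1, h2⟩ := inj2 _ _ h'
      cases h2
  · obtain ⟨d, h1, rfl⟩ := inj1 _ _ h
    rcases u' with s' | x' | x' <;> rcases v' with t' | y' | y'
    · simp [ob] at h'
    · simp [ob] at h'
    · simp [ob] at h'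
    · simp [ob] at h'
    · obtain ⟨d', h2, h3⟩ := inj1 _ _ h'
      simp only [Sum.inr.injEq, Sum.inl.injEq] at h3
      subst h3
      obtain ⟨t, ht⟩ := match_diff (cls_inj h1 h2)
      refine ⟨(t, 0), ?_⟩
      simp only [ts_1, Sum.inr.injEq, Sum.inl.injEq]
      exact ht
    · simp [ob] at h'
    · simp [ob] at h'
    · simp [ob] at h'
    · obtain ⟨d', h2, h3⟩ := inj2 _ _ h'
      simp at h3
  · simp only [ob, Option.some.injEq] at h
    subst h
    rcases u' with s' | x' | x' <;> rcases v' with t' | y' | y'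
    · simp [ob] at h'
    · simp [ob] at h'
    · simp [ob] at h'
    · simp [ob] at h'
    · obtain ⟨d, h1, h2⟩ := inj1 _ _ h'
      cases h2
    · refine ⟨(x' - x, y' - y), Or.inl ⟨?_, ?_⟩⟩
      · rw [ts_1, add_sub_cancel]
      · rw [ts_2, add_sub_cancel]
    · simp [ob] at h'
    · refine ⟨(y' - x, x' - y), Or.inr ⟨?_, ?_⟩⟩
      · rw [ts_1, add_sub_cancel]
      · rw [ts_2, add_sub_cancel]
    · obtain ⟨d, h1, h2⟩ := inj2 _ _ h'
      cases h2
  · simp only [ob, Option.some.injEq] at h
    subst h
    rcases u' with s' | x' | x' <;> rcases v' with t' | y' | y'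
    · simp [ob] at h'
    · simp [ob] at h'
    · simp only [ob, Option.some.injEq, Sum.inl.injEq, Prod.mk.injEq, and_true] at h'
      subst h'
      refine ⟨(0, y' - x), Or.inr ⟨?_, rfl⟩⟩
      rw [ts_2, add_sub_cancel]
    · simp [ob] at h'
    · obtain ⟨d, h1, h2⟩ := inj1 _ _ h'
      cases h2
    · simp [ob] at h'
    · simp only [ob, Option.some.injEq, Sum.inl.injEq, Prod.mk.injEq, and_true] at h'
      subst h'
      refine ⟨(0, x' - x), Or.inl ⟨?_, rfl⟩⟩
      rw [ts_2, add_sub_cancel]
    · simp [ob] at h'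
    · obtain ⟨d, h1, h2⟩ := inj2 _ _ h'
      cases h2
  · simp only [ob, Option.some.injEq] at h
    subst h
    rcases u' with s' | x' | x' <;> rcases v' with t' | y' | y'
    · simp [ob] at h'
    · simp [ob] at h'
    · simp [ob] at h'
    · simp [ob] at h'
    · obtain ⟨d, h1, h2⟩ := inj1 _ _ h'
      cases h2
    · refine ⟨(x' - y, y' - x), Or.inr ⟨?_, ?_⟩⟩
      · rw [ts_2, add_sub_cancel]
      · rw [ts_1, add_sub_cancel]
    · simp [ob] at h'
    · refine ⟨(y' - y, x' - x), Or.inl ⟨?_, ?_⟩⟩
      · rw [ts_2, add_sub_cancel]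
      · rw [ts_1, add_sub_cancel]
    · obtain ⟨d, h1, h2⟩ := inj2 _ _ h'
      cases h2
  · obtain ⟨d, h1, rfl⟩ := inj2 _ _ h
    rcases u' with s' | x' | x' <;> rcases v' with t' | y' | y'
    · simp [ob] at h'
    · simp [ob] at h'
    · simp [ob] at h'
    · simp [ob] at h'
    · obtain ⟨d', h2, h3⟩ := inj1 _ _ h'
      simp at h3
    · simp [ob] at h'
    · simp [ob] at h'
    · simp [ob] at h'
    · obtain ⟨d', h2, h3⟩ := inj2 _ _ h'
      simp only [Sum.inr.injEq] at h3
      subst h3
      obtain ⟨t, ht⟩ := match_diff (cls_inj h1 h2)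
      refine ⟨(0, t), ?_⟩
      simp only [ts_2, Sum.inr.injEq]
      exact ht

variable [Fintype A] [Fintype B]

/-- the graph of a configuration -/
abbrev Gs (χ : JJ A B → Bool) : SimpleGraph (VV A B) := Bs A B ⊔ GR ob ob_symm ob_self χ

theorem card_base : (ED (Bs A B)).card ≤ 1 := by
  classical
  have h1 : ∀ e ∈ ED (Bs A B), e.1 = s((.inl false : VV A B), .inl true) := by
    rintro ⟨e, he⟩ h
    rw [mem_ED] at h
    simp only at h ⊢
    induction e using Sym2.ind with
    | _ u v =>
    rw [SimpleGraph.mem_edgeSet] at h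
    rcases u with s | x <;> rcases v with t | y
    · have hst : s ≠ t := h
      cases s <;> cases t
      · exact absurd rfl hst
      · rfl
      · exact Sym2.eq_swap
      · exact absurd rfl hst
    · exact h.elim
    · exact h.elim
    · exact h.elim
  rw [Finset.card_le_one]
  intro e he f hf
  exact Subtype.ext ((h1 e he).trans (h1 f hf).symm)

/-- the relation: the translations are generated by elements `a i` of order `p` and one more
element -/
theorem relation {n q : ℕ} {Q : SimpleGraph (Fin n) → Prop} (hQ : GP1 n q Q)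
    (hV : Fintype.card (VV A B) = n) (p : ℕ) [Fact p.Prime] {ι : Type} [Fintype ι]
    (a : ι → A × B) (c : A × B) (hap : ∀ i, p • a i = 0)
    (hgen : ∀ t : A × B, t ∈ AddSubgroup.closure (insert c (Set.range a)))
    (hq : q + 1 < n.choose 2) :
    ∑ χ : JJ A B → Bool, sgn χ * bit (PV Q (VV A B) (Gs χ)) = 0 := by
  have hgen' : ∀ t : A × B, ts t ∈ Subgroup.closure
      (insert (ts c) (Set.range fun i => ts (a i))) := by
    intro t
    have h := hgen t
    induction h using AddSubgroup.closure_induction with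
    | mem x hx =>
      refine Subgroup.subset_closure ?_
      rcases hx with rfl | ⟨i, rfl⟩
      · exact Set.mem_insert _ _
      · exact Set.mem_insert_of_mem _ ⟨i, rfl⟩
    | zero =>
      rw [ts_zero]
      exact Subgroup.one_mem _
    | add x y _ _ hx hy =>
      rw [ts_add]
      exact Subgroup.mul_mem _ hx hy
    | neg x _ hx =>
      have h1 : ts (-x) = (ts x)⁻¹ := by
        rw [eq_inv_iff_mul_eq_one, ← ts_add, neg_add_cancel, ts_zero]
      rw [h1]
      exact Subgroup.inv_mem _ hx
  refine rel_orb1 hQ hV p (fun i => ts (a i)) (ts c) (fun i j => ts_comm _ _) ?_ ?_ (Bs A B)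
    ⟨.inl false, .inl true, by intro h; cases h⟩ (fun i => bs_ts _) (bs_ts _) ob
    ob_symm ob_self ob_none ob_base (fun i => ob_ts _) (ob_ts _) ob_exists ?_
    (lt_of_le_of_lt (Nat.add_le_add_left card_base _) hq)
  · intro i
    rw [← ts_nsmul, hap, ts_zero]
  · intro i
    rw [mul_assoc, ts_comm, ← mul_assoc, inv_mul_cancel, one_mul]
    exact Subgroup.subset_closure (Set.mem_range_self i)
  · intro j u v u' v' h h'
    obtain ⟨t, ht⟩ := ob_trans j u v u' v' h h'
    exact ⟨ts t, hgen' t, ht⟩

end

end Run7.h972.Ham
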