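import Pool.Agent.Run7.h972.Rel1

set_option autoImplicit false

/-!
# The relation with some edges fixed to be present, in terms of an orbit function
-/

namespace Run7.h972.Rel1

open Finset
open Pool.Agent.H119R2.Kp (GP PV)
open Pool.Agent.H119R2.Kp.RelAux (ED mem_ED card_ED)
open Pool.Agent.TH669.KP (sgn bit GR GR_adj)

theorem rel_orb1 {n q : ℕ} {P : SimpleGraph (Fin n) → Prop} (hP : GP1 n q P) {V : Type} [Fintype V]
    [DecidableEq V] (hV : Fintype.card V = n) (p : ℕ) [Fact p.Prime] {ι : Type} [Fintype ι]
    (a : ι → Equiv.Perm V) (c : Equiv.Perm V)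
    (hcomm : ∀ i j, a i * a j = a j * a i) (hap : ∀ i, a i ^ p = 1)
    (hca : ∀ i, c⁻¹ * a i * c ∈ Subgroup.closure (Set.range a))
    {J : Type} [Fintype J] [DecidableEq J] (B : SimpleGraph V) (hB : ∃ x y, B.Adj x y)
    (hBa : ∀ i u v, B.Adj u v → B.Adj (a i u) (a i v)) (hBc : ∀ u v, B.Adj u v → B.Adj (c u) (c v))
    (orb : V → V → Option J)
    (hs : ∀ u v, orb u v = orb v u) (hd : ∀ u, orb u u = none)
    (hd' : ∀ u v, u ≠ v → orb u v = none → B.Adj u v) (hdB : ∀ u v, B.Adj u v → orb u v = none)
    (hoa : ∀ i u v, orb (a i u) (a i v) = orb u v) (hoc : ∀ u v, orb (c u) (c v) = orb u v)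
    (hne : ∀ j, ∃ u v, orb u v = some j)
    (htr : ∀ j u v u' v', orb u v = some j → orb u' v' = some j →
      ∃ g ∈ Subgroup.closure (insert c (Set.range a)), (g u = u' ∧ g v = v') ∨ (g u = v' ∧ g v = u'))
    (hq : q + (ED B).card < n.choose 2) :
    ∑ χ : J → Bool, sgn χ * bit (PV P V (B ⊔ GR orb hs hd χ)) = 0 := by
  classical
  set m := Fintype.card J with hm
  let e : J ≃ Fin m := Fintype.equivFin J
  let R : Fin m → SimpleGraph V := fun x => GR orb hs hd (fun j => decide (e j = x))
  have hRadj : ∀ x u v, (R x).Adj u v ↔ ∃ j, orb u v = some j ∧ e j = x := by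
    intro x u v
    simp only [R, GR_adj, decide_eq_true_eq]
  have hr := rel1 hP hV p a c hcomm hap hca (m := m) B R hB hBa hBc
    (fun x i u v h => by
      rw [hRadj] at h ⊢
      rw [hoa]
      exact h)
    (fun x u v h => by
      rw [hRadj] at h ⊢
      rw [hoc]
      exact h)
    (fun x y hxy => by
      rw [disjoint_iff]
      ext u v
      rw [SimpleGraph.inf_adj, hRadj, hRadj]
      constructor
      · rintro ⟨⟨j, h1, h2⟩, ⟨j', h1', h2'⟩⟩
        rw [h1] at h1'
        have : j = j' := by simpa using h1'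
        exact (hxy (by rw [← h2, ← h2', this])).elim
      · intro h
        exact h.elim)
    (fun x => by
      rw [disjoint_iff]
      ext u v
      rw [SimpleGraph.inf_adj, hRadj]
      constructor
      · rintro ⟨h1, j, h2, _⟩
        rw [hdB u v h1] at h2
        cases h2
      · intro h
        exact h.elim)
    (fun x => by
      obtain ⟨u, v, huv⟩ := hne (e.symm x)
      exact ⟨u, v, (hRadj x u v).2 ⟨_, huv, by simp⟩⟩)
    (fun x u v u' v' h h' => by
      rw [hRadj] at h h'
      obtain ⟨j, h1, h2⟩ := h
      obtain ⟨j', h1', h2'⟩ := h'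
      have : j' = j := e.injective (by rw [h2, h2'])
      subst this
      exact htr _ u v u' v' h1 h1')
    (by
      have h1 : n.choose 2 = (ED (⊤ : SimpleGraph V)).card := by
        rw [card_ED, Nat.card_eq_fintype_card,
          ← SimpleGraph.edgeFinset_card, SimpleGraph.card_edgeFinset_top_eq_card_choose_two, hV]
      have h2 : ED (⊤ : SimpleGraph V) ⊆ ED B ∪ univ.biUnion fun x => ED (R x) := by
        rintro ⟨e', he'⟩ _
        rw [Finset.mem_union, Finset.mem_biUnion]
        induction e' using Sym2.ind with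
        | _ u v =>
        have huv : u ≠ v := by
          rintro rfl
          exact he' (by simp)
        by_cases hj : orb u v = none
        · left
          rw [mem_ED]
          exact hd' u v huv hj
        · right
          obtain ⟨j, hj⟩ := Option.ne_none_iff_exists'.1 hj
          refine ⟨e j, Finset.mem_univ _, ?_⟩
          rw [mem_ED]
          exact (hRadj (e j) u v).2 ⟨j, hj, rfl⟩
      have h3 : n.choose 2 ≤ (ED B).card + ∑ x, Nat.card (R x).edgeSet := by
        rw [h1]
        refine (Finset.card_le_card h2).trans ((Finset.card_union_le _ _).trans ?_)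
        refine Nat.add_le_add_left (Finset.card_biUnion_le.trans ?_) _
        refine Finset.sum_le_sum fun x _ => ?_
        rw [card_ED]
      omega)
  rw [← hr]
  let E : (J → Bool) ≃ Finset (Fin m) :=
    { toFun := fun χ => univ.filter fun x => χ (e.symm x) = true
      invFun := fun I j => decide (e j ∈ I)
      left_inv := by
        intro χ
        funext j
        simp
      right_inv := by
        intro I
        ext x
        simp }
  refine Fintype.sum_equiv E _ _ fun χ => ?_
  have h1 : sgn χ = (-1 : ℤ) ^ (E χ).card := by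
    have h2 : sgn χ = ∏ x : Fin m, (if χ (e.symm x) = true then (-1 : ℤ) else 1) :=
      Fintype.prod_equiv e _ _ fun j => by simp
    rw [h2, Finset.prod_ite, Finset.prod_const, Finset.prod_const_one, mul_one]
    rfl
  have h2 : B ⊔ GR orb hs hd χ = B ⊔ ⨆ x ∈ E χ, R x := by
    congr 1
    ext u v
    rw [GR_adj]
    simp only [SimpleGraph.iSup_adj]
    constructor
    · rintro ⟨j, hj, hχ⟩
      refine ⟨e j, ?_, (hRadj (e j) u v).2 ⟨j, hj, rfl⟩⟩
      simp [E, hχ]
    · rintro ⟨x, hx, hR⟩
      obtain ⟨j, hj, rfl⟩ := (hRadj x u v).1 hR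
      refine ⟨j, hj, ?_⟩
      simpa [E] using hx
  rw [h1, h2]
  congr 1

end Run7.h972.Rel1
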