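import Mathlib
import Pool.Agent.H119R2.Kp.Rel
import Pool.Agent.TH669.KP.Orb

set_option autoImplicit false

/-!
# The relation after one positive answer

A property with a decision tree of depth `n.choose 2 - 1` has, for every pair of vertices, a decision
tree of depth `n.choose 2 - 2` for the graphs in which this pair is an edge. So the signed sum over the
invariant graphs vanishes also if one edge is fixed to be present.
-/

namespace Run7.h972.Rel1

open Finset
open Pool.Agent.H98R2.Ev (EV toG NE)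
open Pool.Agent.H119R2.Kp
open Pool.Agent.H119R2.Kp.RelAux

/-- a monotone isomorphism invariant property, with a decision tree of depth `q` for the graphs that
contain a certain edge -/
structure GP1 (n q : ℕ) (P : SimpleGraph (Fin n) → Prop) : Prop where
  mono : ∀ G H : SimpleGraph (Fin n), G ≤ H → P G → P H
  iso : ∀ (σ : Fin n ≃ Fin n) (G : SimpleGraph (Fin n)), P G → P (G.map σ.toEmbedding)
  dec : ∃ e : EV (Fin n), Dec q (fun S : Finset (EV (Fin n)) => P (toG (insert e S)))

/-- the first query is answered positively -/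
theorem gp1_of_gp {n q : ℕ} {P : SimpleGraph (Fin n) → Prop} (h : GP n (q + 1) P)
    (h1 : ∃ G, P G) (h0 : ∃ G, ¬ P G) : GP1 n q P := by
  refine ⟨h.mono, h.iso, ?_⟩
  have key : ∀ (r : ℕ) (F : Finset (EV (Fin n)) → Prop), Dec r F → r = q + 1 →
      (∃ S, F S) → (∃ S, ¬ F S) → ∃ e, Dec q (fun S => F (insert e S)) := by
    intro r F hF hr hS1 hS0
    cases hF with
    | const _ _ hc =>
      exfalso
      obtain ⟨S1, hS1⟩ := hS1
      obtain ⟨S0, hS0⟩ := hS0
      rcases hc with hc | hc
      · exact hS0 (hc S0)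
      · exact hc S1 hS1
    | node q' _ e d0 d1 =>
      have : q' = q := by omega
      subst this
      exact ⟨e, d1⟩
  obtain ⟨G1, hG1⟩ := h1
  obtain ⟨G0, hG0⟩ := h0
  exact key (q + 1) _ h.dec rfl ⟨ED G1, by rwa [toG_ED]⟩ ⟨ED G0, by rwa [toG_ED]⟩

theorem PV_iff1 {n q : ℕ} {P : SimpleGraph (Fin n) → Prop} (hP : GP1 n q P) {V : Type}
    (e0 : V ≃ Fin n) (G : SimpleGraph V) : PV P V G ↔ P (G.map e0.toEmbedding) := by
  constructor
  · rintro ⟨e, he⟩
    have h := hP.iso (e.symm.trans e0) _ he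
    rw [SimpleGraph.map_map] at h
    have h2 : ⇑(e.symm.trans e0).toEmbedding ∘ ⇑e.toEmbedding = ⇑e0.toEmbedding := by
      funext x; simp
    rwa [h2] at h
  · intro h
    exact ⟨e0, h⟩

theorem PV_mono1 {n q : ℕ} {P : SimpleGraph (Fin n) → Prop} (hP : GP1 n q P) {V : Type}
    {G H : SimpleGraph V} (hGH : G ≤ H) (h : PV P V G) : PV P V H := by
  obtain ⟨e, he⟩ := h
  exact ⟨e, hP.mono _ _ (SimpleGraph.map_monotone _ hGH) he⟩

theorem PV_perm1 {n : ℕ} {P : SimpleGraph (Fin n) → Prop} {V : Type}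
    (g : Equiv.Perm V) (G : SimpleGraph V) (h : PV P V (G.map g.toEmbedding)) : PV P V G := by
  obtain ⟨e, he⟩ := h
  refine ⟨g.trans e, ?_⟩
  rw [SimpleGraph.map_map] at he
  exact he

/-- a bijection that maps a given pair to a given pair -/
theorem exists_equiv {n : ℕ} {V : Type} [Fintype V] (hV : Fintype.card V = n) {x y : V} (hxy : x ≠ y)
    {i j : Fin n} (hij : i ≠ j) : ∃ e : V ≃ Fin n, e x = i ∧ e y = j := by
  classical
  have f : V ≃ Fin n := Fintype.equivFinOfCardEq hV
  set s1 := Equiv.swap (f x) i with hs1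
  have h1 : s1 (f x) = i := Equiv.swap_apply_left _ _
  have h2 : s1 (f y) ≠ i := by
    intro h
    rw [← h1] at h
    exact hxy (f.injective (s1.injective h)).symm
  set s2 := Equiv.swap (s1 (f y)) j with hs2
  refine ⟨(f.trans s1).trans s2, ?_, ?_⟩
  · change s2 (s1 (f x)) = i
    rw [h1, hs2, Equiv.swap_apply_of_ne_of_ne h2.symm hij]
  · change s2 (s1 (f y)) = j
    rw [hs2, Equiv.swap_apply_left]

open Pool.Agent.H98R2.Ev in
open Classical in
theorem rel1 {n q : ℕ} {P : SimpleGraph (Fin n) → Prop} (hP : GP1 n q P) {V : Type} [Fintype V]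
    [DecidableEq V] (hV : Fintype.card V = n) (p : ℕ) [Fact p.Prime] {ι : Type} [Fintype ι]
    (a : ι → Equiv.Perm V) (c : Equiv.Perm V)
    (hcomm : ∀ i j, a i * a j = a j * a i) (hap : ∀ i, a i ^ p = 1)
    (hca : ∀ i, c⁻¹ * a i * c ∈ Subgroup.closure (Set.range a))
    {m : ℕ} (B : SimpleGraph V) (R : Fin m → SimpleGraph V)
    (hB : ∃ x y, B.Adj x y)
    (hBa : ∀ i u v, B.Adj u v → B.Adj (a i u) (a i v)) (hBc : ∀ u v, B.Adj u v → B.Adj (c u) (c v))
    (hRa : ∀ j i u v, (R j).Adj u v → (R j).Adj (a i u) (a i v))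
    (hRc : ∀ j u v, (R j).Adj u v → (R j).Adj (c u) (c v))
    (hd : ∀ i j, i ≠ j → Disjoint (R i) (R j)) (hd0 : ∀ i, Disjoint B (R i))
    (hne : ∀ j, ∃ u v, (R j).Adj u v)
    (htr : ∀ j u v u' v', (R j).Adj u v → (R j).Adj u' v' →
      ∃ g ∈ Subgroup.closure (insert c (Set.range a)), (g u = u' ∧ g v = v') ∨ (g u = v' ∧ g v = u'))
    (hq : q < ∑ j, Nat.card (R j).edgeSet) :
    ∑ I : Finset (Fin m), (-1 : ℤ) ^ I.card *
      (if PV P V (B ⊔ ⨆ j ∈ I, R j) then 1 else 0) = 0 := by
  obtain ⟨x0, y0, hxy0⟩ := hB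
  obtain ⟨e1, hdec1⟩ := hP.dec
  obtain ⟨e0, he0⟩ : ∃ e0 : V ≃ Fin n, Sym2.map e0 s(x0, y0) = e1.1 := by
    obtain ⟨z, hz⟩ := e1
    induction z using Sym2.ind with
    | _ i j =>
    have hij : i ≠ j := by rwa [Sym2.mk_isDiag_iff] at hz
    obtain ⟨e0, h1, h2⟩ := exists_equiv hV hxy0.ne hij
    exact ⟨e0, by rw [Sym2.map_mk, h1, h2]⟩
  set O : Fin m → Finset (EV V) := fun j => ED (R j) with hO
  set A : Finset (EV V) := univ.biUnion O with hA
  set B0 : Finset (EV V) := ED B with hB0
  -- disjointness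
  have hdisj' : ∀ G H : SimpleGraph V, Disjoint G H → Disjoint (ED G) (ED H) := by
    intro G H hGH
    rw [Finset.disjoint_left]
    rintro ⟨e, he⟩ h1 h2
    rw [mem_ED] at h1 h2
    revert he h1 h2
    refine Sym2.ind (fun u v => ?_) e
    intro _ h1 h2
    have := hGH.le_bot (show (G ⊓ H).Adj u v from ⟨h1, h2⟩)
    exact this
  have hOd : ∀ i j, i ≠ j → Disjoint (O i) (O j) := fun i j hij => hdisj' _ _ (hd i j hij)
  have hAB : Disjoint A B0 := by
    rw [hA, Finset.disjoint_biUnion_left]
    intro j _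
    exact (hdisj' _ _ (hd0 j)).symm
  have hcard : A.card = ∑ j, Nat.card (R j).edgeSet := by
    rw [hA, Finset.card_biUnion (fun i _ j _ hij => hOd i j hij)]
    exact Finset.sum_congr rfl fun j _ => card_ED (R j)
  -- decision tree
  have hdec : Dec q (fun S : Finset (EV V) => P (toG (insert e1 (S.map (ee e0).toEmbedding)))) := by
    refine hdec1.comap (fun S : Finset (EV V) => S.map (ee e0).toEmbedding) ?_
    intro e
    refine Or.inr (Or.inr (Or.inl ⟨(ee e0).symm e, fun S => ?_⟩))
    rw [mem_map_equiv]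
  have he1B : e1 ∈ B0.map (ee e0).toEmbedding := by
    rw [mem_map]
    have hd1 : ¬ (s(x0, y0) : Sym2 V).IsDiag := by
      rw [Sym2.mk_isDiag_iff]
      exact hxy0.ne
    refine ⟨⟨s(x0, y0), hd1⟩, ?_, ?_⟩
    · rw [hB0, mem_ED]
      exact hxy0
    · apply Subtype.ext
      rw [← he0]
      rfl
  set D : Finset (EV V) → Prop := fun S => ¬ PV P V (toG (B0 ∪ S)) with hD
  have hNE : NE A D := by
    refine ne_congr (hdec.ne A B0 hAB (by rw [hcard]; exact hq)) D ?_
    intro S _
    rw [hD]
    simp only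
    have h1 : insert e1 ((B0 ∪ S).map (ee e0).toEmbedding) = (B0 ∪ S).map (ee e0).toEmbedding := by
      refine insert_eq_of_mem ?_
      rw [Finset.map_union]
      exact mem_union_left _ he1B
    rw [h1, toG_map, PV_iff1 hP e0]
  -- invariance
  have hOa : ∀ j i, (O j).map (ep (a i)).toEmbedding = O j := fun j i => ED_map _ _ (hRa j i)
  have hOc : ∀ j, (O j).map (ep c).toEmbedding = O j := fun j => ED_map _ _ (hRc j)
  have hBa' : ∀ i, B0.map (ep (a i)).toEmbedding = B0 := fun i => ED_map _ _ (hBa i)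
  have hBc' : B0.map (ep c).toEmbedding = B0 := ED_map _ _ hBc
  have hAg : ∀ g : Equiv.Perm V, (∀ j, (O j).map (ep g).toEmbedding = O j) →
      A.map (ep g).toEmbedding = A := by
    intro g hg
    rw [hA, Finset.map_eq_image, Finset.biUnion_image]
    refine Finset.biUnion_congr rfl fun j _ => ?_
    rw [← Finset.map_eq_image, hg j]
  have hDg : ∀ (g : Equiv.Perm V), B0.map (ep g).toEmbedding = B0 → ∀ S, D S →
      D (S.map (ep g).toEmbedding) := by
    intro g hg S hS
    rw [hD] at hS ⊢
    simp only at hS ⊢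
    intro h
    apply hS
    have h2 : B0 ∪ S.map (ep g).toEmbedding = (B0 ∪ S).map (ep g).toEmbedding := by
      rw [Finset.map_union, hg]
    rw [h2, map_ep_toG] at h
    exact PV_perm1 g _ h
  have key := orbit_sum (E := EV V) A D (by
      intro S T hST _ hT
      rw [hD] at hT ⊢
      simp only at hT ⊢
      exact fun h => hT (PV_mono1 hP (toG_mono (Finset.union_subset_union_right hST)) h))
    hNE p (fun i => ep (a i)) (ep c)
    (by
      intro i j
      change ep (a i) * ep (a j) = ep (a j) * ep (a i)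
      rw [← ep_mul, ← ep_mul, hcomm])
    (by
      intro i
      change ep (a i) ^ p = 1
      rw [← ep_pow, hap, ep_one])
    (fun i => hAg (a i) fun j => hOa j i) (hAg c hOc)
    (fun i S _ hS => hDg (a i) (hBa' i) S hS) (fun S _ hS => hDg c hBc' S hS)
    (by
      intro S hS i
      change (S.map (ep c).toEmbedding).map (ep (a i)).toEmbedding = S.map (ep c).toEmbedding
      have h1 : a i * c = c * (c⁻¹ * a i * c) := by group
      rw [mp_mul, h1, ← mp_mul]
      rw [inv_closure S (Set.range a) ?_ _ (hca i)]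
      rintro g ⟨i', rfl⟩
      exact hS i')
    O (by
      intro j
      obtain ⟨u, v, huv⟩ := hne j
      refine ⟨⟨s(u, v), ?_⟩, ?_⟩
      · rw [Sym2.mk_isDiag_iff]; exact huv.ne
      · rw [hO]
        simp only
        rw [mem_ED]
        exact huv)
    hOd rfl
    (by
      intro S hSA hSa hSc
      refine ⟨univ.filter fun j => (S ∩ O j).Nonempty, ?_⟩
      have hinvS : ∀ g ∈ Subgroup.closure (insert c (Set.range a)),
          S.map (ep g).toEmbedding = S := by
        refine fun g hg => inv_closure S _ ?_ g hg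
        rintro g' (rfl | ⟨i, rfl⟩)
        · exact hSc
        · exact hSa i
      ext e
      rw [mem_biUnion]
      constructor
      · intro he
        have h1 := hSA he
        rw [hA, mem_biUnion] at h1
        obtain ⟨j, -, hj⟩ := h1
        exact ⟨j, by rw [mem_filter]; exact ⟨mem_univ _, ⟨e, mem_inter.2 ⟨he, hj⟩⟩⟩, hj⟩
      · rintro ⟨j, hj, hej⟩
        rw [mem_filter] at hj
        obtain ⟨-, e', he'⟩ := hj
        rw [mem_inter] at he'
        obtain ⟨he'S, he'j⟩ := he'
        rw [hO] at hej he'j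
        simp only at hej he'j
        rw [mem_ED] at hej he'j
        obtain ⟨e, hed⟩ := e
        obtain ⟨e', hed'⟩ := e'
        simp only at hej he'j
        induction e using Sym2.ind with
        | _ u' v' =>
        induction e' using Sym2.ind with
        | _ u v =>
        obtain ⟨g, hg, hg'⟩ := htr j u v u' v' he'j hej
        have h2 : ep g ⟨s(u, v), hed'⟩ = ⟨s(u', v'), hed⟩ := by
          apply Subtype.ext
          rw [ep_val]
          change s(g u, g v) = s(u', v')
          rcases hg' with ⟨h3, h4⟩ | ⟨h3, h4⟩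
          · rw [h3, h4]
          · rw [h3, h4, Sym2.eq_swap]
        rw [← h2, ← hinvS g hg]
        exact mem_map_of_mem _ he'S)
    hOa hOc
  -- final computation
  have hm : (univ : Finset (Fin m)) ≠ ∅ := by
    intro h
    rw [h, Finset.sum_empty] at hq
    exact absurd hq (Nat.not_lt_zero _)
  have hsum : ∑ I : Finset (Fin m), (-1 : ℤ) ^ I.card = 0 := by
    have := Finset.sum_powerset_neg_one_pow_card (x := (univ : Finset (Fin m)))
    rw [if_neg hm, Finset.powerset_univ] at this
    exact this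
  have hval : ∀ I : Finset (Fin m), D (I.biUnion O) ↔ ¬ PV P V (B ⊔ ⨆ j ∈ I, R j) := by
    intro I
    rw [hD]
    simp only
    rw [toG_union, hB0, toG_ED, hO, toG_biUnion]
  have hfin : ∑ I : Finset (Fin m), (-1 : ℤ) ^ I.card *
      (if PV P V (B ⊔ ⨆ j ∈ I, R j) then 1 else 0) =
      ∑ I : Finset (Fin m), (-1 : ℤ) ^ I.card -
        ∑ I : Finset (Fin m), (-1 : ℤ) ^ I.card * (if D (I.biUnion O) then 1 else 0) := by
    rw [← Finset.sum_sub_distrib]
    refine Finset.sum_congr rfl fun I _ => ?_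
    by_cases h : PV P V (B ⊔ ⨆ j ∈ I, R j)
    · rw [if_pos h, if_neg (fun h' => (hval I).1 h' h)]
      ring
    · rw [if_neg h, if_pos ((hval I).2 h)]
      ring
  rw [hfin, hsum, key, sub_zero]

end Run7.h972.Rel1
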