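import Pool.Agent.Run7.h972.Model
import Pool.Agent.Run7.h972.Lists
import Pool.Agent.TH669.KS.Gen

set_option autoImplicit false
set_option linter.unusedSectionVars false

/-!
# The pancyclic configurations
-/

namespace Run7.h972.Ham

open List
open Pool.Agent.TH669.KP (sgn bit GR GR_adj Stp)
open Pool.Agent.TH669.KC (Cl cls cls_zero cls_of_ne cls_ne_none cls_neg cls_inj cls_surj)
open Pool.Agent.TH669.KS (SS gn)

/-- a cycle through a path `M` with additional vertices before and after -/
theorem cyc_wrap {V : Type} (G : SimpleGraph V) (pre M post : List V) (hM1 : M.Nodup)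
    (hpp : (pre ++ post).Nodup) (hdis : ∀ z ∈ M, z ∉ pre ∧ z ∉ post)
    (hM : M.IsChain G.Adj) (hpre : pre.IsChain G.Adj) (hpost : post.IsChain G.Adj) {α β : V}
    (hα : M.head? = some α) (hβ : M.getLast? = some β) (h1 : ∀ z ∈ pre.getLast?, G.Adj z α)
    (h2 : ∀ z ∈ post.head?, G.Adj β z) {γ δ : V} (hγ : (pre ++ [α]).head? = some γ)
    (hδ : ([β] ++ post).getLast? = some δ) (hcl : G.Adj δ γ) :
    (SimpleGraph.cycleGraph (pre.length + M.length + post.length)).IsContained G := by
  have hMne : M ≠ [] := by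
    rintro rfl
    simp at hα
  have hlen : (pre ++ (M ++ post)).length = pre.length + M.length + post.length := by
    rw [List.length_append, List.length_append, add_assoc]
  rw [← hlen]
  rw [List.nodup_append] at hpp
  refine cyc_of_list G (pre ++ (M ++ post)) ?_ ?_ (α := γ) (β := δ) ?_ ?_ hcl
  · rw [List.nodup_append, List.nodup_append]
    refine ⟨hpp.1, ⟨hM1, hpp.2.1, ?_⟩, ?_⟩
    · intro x hx y hy hxy
      subst hxy
      exact (hdis x hx).2 hy
    · intro x hx y hy hxy
      subst hxy
      rcases List.mem_append.1 hy with hy | hy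
      · exact (hdis x hy).1 hx
      · exact hpp.2.2 x hx x hy rfl
  · rw [List.isChain_append, List.isChain_append]
    refine ⟨hpre, ⟨hM, hpost, ?_⟩, ?_⟩
    · intro x hx y hy
      rw [hβ, Option.mem_some_iff] at hx
      subst hx
      exact h2 y hy
    · intro x hx y hy
      rw [List.head?_append, hα] at hy
      simp only [Option.some_or, Option.mem_some_iff] at hy
      subst hy
      exact h1 x hx
  · rw [List.head?_append] at hγ ⊢
    rw [List.head?_append, hα]
    simpa using hγ
  · rw [List.getLast?_append] at hδ ⊢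
    rw [List.getLast?_append, hβ]
    rcases post with _ | ⟨z, post⟩
    · simpa using hδ
    · simpa using hδ

section

variable {A B : Type} [AddCommGroup A] [DecidableEq A] [AddCommGroup B] [DecidableEq B]

/-- the chosen differences in the first block -/
abbrev k1 (χ : JJ A B → Bool) : Cl A → Bool := fun d => χ (.inr (.inr (.inl d)))

/-- the chosen differences in the second block -/
abbrev k2 (χ : JJ A B → Bool) : Cl B → Bool := fun d => χ (.inr (.inr (.inr d)))

variable [Fintype A] [Fintype B]

theorem adj_00 (χ : JJ A B → Bool) (s t : Bool) :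
    (Gs χ).Adj (.inl s) (.inl t) ↔ s ≠ t := by
  rw [SimpleGraph.sup_adj, GR_adj]
  constructor
  · rintro (h | ⟨j, h, _⟩)
    · exact h
    · simp [ob] at h
  · intro h
    exact Or.inl h

theorem adj_01 (χ : JJ A B → Bool) (s : Bool) (x : A) :
    (Gs χ).Adj (.inl s) (.inr (.inl x)) ↔ χ (.inl (s, false)) = true := by
  rw [SimpleGraph.sup_adj, GR_adj]
  constructor
  · rintro (h | ⟨j, h, h2⟩)
    · exact h.elim
    · simp only [ob, Option.some.injEq] at h
      rw [h]
      exact h2
  · intro h
    exact Or.inr ⟨_, rfl, h⟩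

theorem adj_02 (χ : JJ A B → Bool) (s : Bool) (x : B) :
    (Gs χ).Adj (.inl s) (.inr (.inr x)) ↔ χ (.inl (s, true)) = true := by
  rw [SimpleGraph.sup_adj, GR_adj]
  constructor
  · rintro (h | ⟨j, h, h2⟩)
    · exact h.elim
    · simp only [ob, Option.some.injEq] at h
      rw [h]
      exact h2
  · intro h
    exact Or.inr ⟨_, rfl, h⟩

theorem adj_12 (χ : JJ A B → Bool) (x : A) (y : B) :
    (Gs χ).Adj (.inr (.inl x)) (.inr (.inr y)) ↔ χ (.inr (.inl ())) = true := by
  rw [SimpleGraph.sup_adj, GR_adj]
  constructor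
  · rintro (h | ⟨j, h, h2⟩)
    · exact h.elim
    · simp only [ob, Option.some.injEq] at h
      rw [h]
      exact h2
  · intro h
    exact Or.inr ⟨_, rfl, h⟩

theorem adj_11 (χ : JJ A B → Bool) (x y : A) :
    (Gs χ).Adj (.inr (.inl x)) (.inr (.inl y)) ↔ x - y ∈ SS (k1 χ) := by
  rw [SimpleGraph.sup_adj, GR_adj]
  constructor
  · rintro (h | ⟨j, h, h2⟩)
    · exact h.elim
    · simp only [ob, Option.map_eq_some_iff] at h
      obtain ⟨d, hd, rfl⟩ := h
      exact ⟨d, hd, h2⟩
  · rintro ⟨d, hd, h⟩
    refine Or.inr ⟨.inr (.inr (.inl d)), ?_, h⟩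
    simp only [ob, hd]
    rfl

theorem adj_22 (χ : JJ A B → Bool) (x y : B) :
    (Gs χ).Adj (.inr (.inr x)) (.inr (.inr y)) ↔ x - y ∈ SS (k2 χ) := by
  rw [SimpleGraph.sup_adj, GR_adj]
  constructor
  · rintro (h | ⟨j, h, h2⟩)
    · exact h.elim
    · simp only [ob, Option.map_eq_some_iff] at h
      obtain ⟨d, hd, rfl⟩ := h
      exact ⟨d, hd, h2⟩
  · rintro ⟨d, hd, h⟩
    refine Or.inr ⟨.inr (.inr (.inr d)), ?_, h⟩
    simp only [ob, hd]
    rfl

theorem stp_11 (χ : JJ A B → Bool) (x y : A) (h : Stp (SS (k1 χ)) x y) :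
    (Gs χ).Adj (.inr (.inl x)) (.inr (.inl y)) := by
  rcases h with h | h
  · exact ((adj_11 χ y x).2 h).symm
  · exact (adj_11 χ x y).2 h

theorem stp_22 (χ : JJ A B → Bool) (x y : B) (h : Stp (SS (k2 χ)) x y) :
    (Gs χ).Adj (.inr (.inr x)) (.inr (.inr y)) := by
  rcases h with h | h
  · exact ((adj_22 χ y x).2 h).symm
  · exact (adj_22 χ x y).2 h

/-- the list of the first block -/
theorem listA (χ : JJ A B → Bool) : ∃ L : List (VV A B), L.Nodup ∧ L.length = Fintype.card A ∧
    (∀ z ∈ L, ∃ x : A, z = .inr (.inl x)) ∧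
    brk (Gs χ).Adj L + 1 ≤ Nat.card (A ⧸ gn (k1 χ)) ∧
    (gn (k1 χ) ≠ ⊥ → ∃ x y l, L = x :: y :: l ∧ (Gs χ).Adj x y) := by
  obtain ⟨L, h1, h2, h3, h4⟩ := cover (SS (k1 χ))
  refine ⟨L.map fun x => .inr (.inl x), ?_, ?_, ?_, ?_, ?_⟩
  · exact h1.map fun x y h => by simpa using h
  · rw [List.length_map]
    classical
    have h5 : L.toFinset = Finset.univ := by
      ext x
      simp [h2 x]
    rw [← Finset.card_univ, ← h5, List.toFinset_card_of_nodup h1]
  · intro z hz
    rw [List.mem_map] at hz
    obtain ⟨x, _, rfl⟩ := hz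
    exact ⟨x, rfl⟩
  · refine le_trans (Nat.add_le_add_right ?_ 1) h3
    exact brk_map _ (stp_11 χ) L
  · intro h
    obtain ⟨x, y, l, hL, hxy⟩ := h4 h
    rw [hL]
    exact ⟨_, _, _, rfl, stp_11 χ x y hxy⟩

/-- the list of the second block -/
theorem listB (χ : JJ A B → Bool) : ∃ L : List (VV A B), L.Nodup ∧ L.length = Fintype.card B ∧
    (∀ z ∈ L, ∃ x : B, z = .inr (.inr x)) ∧
    brk (Gs χ).Adj L + 1 ≤ Nat.card (B ⧸ gn (k2 χ)) := by
  obtain ⟨L, h1, h2, h3, _⟩ := cover (SS (k2 χ))
  refine ⟨L.map fun x => .inr (.inr x), ?_, ?_, ?_, ?_⟩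
  · exact h1.map fun x y h => by simpa using h
  · rw [List.length_map]
    classical
    have h5 : L.toFinset = Finset.univ := by
      ext x
      simp [h2 x]
    rw [← Finset.card_univ, ← h5, List.toFinset_card_of_nodup h1]
  · intro z hz
    rw [List.mem_map] at hz
    obtain ⟨x, _, rfl⟩ := hz
    exact ⟨x, rfl⟩
  · refine le_trans (Nat.add_le_add_right ?_ 1) h3
    exact brk_map _ (stp_22 χ) L

theorem chain_of_brk {V : Type} {R : V → V → Prop} (l : List V) (h : brk R l = 0) : l.IsChain R := by
  induction l with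
  | nil => simp
  | cons x l ih =>
    rcases l with _ | ⟨y, l⟩
    · simp
    · by_cases h1 : R x y
      · rw [brk_pos h1] at h
        rw [List.isChain_cons_cons]
        exact ⟨h1, ih h⟩
      · rw [brk_neg h1] at h
        omega

theorem card_quot_top {G : Type} [AddCommGroup G] {H : AddSubgroup G} (h : H = ⊤) :
    Nat.card (G ⧸ H) = 1 := by
  subst h
  exact AddSubgroup.index_top

theorem card_quot_bot {G : Type} [AddCommGroup G] [Fintype G] {H : AddSubgroup G} (h : H = ⊥) :
    Nat.card (G ⧸ H) = Fintype.card G := by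
  subst h
  rw [← Nat.card_eq_fintype_card]
  exact AddSubgroup.index_bot

/-- no edges between the blocks -/
theorem win0 (χ : JJ A B → Bool) (hst : ∀ e, χ (.inl e) = true) (h1 : gn (k1 χ) = ⊤)
    (h2 : gn (k2 χ) = ⊤) (hA : 2 ≤ Fintype.card A) (t : ℕ) (ht3 : 3 ≤ t)
    (htn : t ≤ Fintype.card A + Fintype.card B + 2) :
    (SimpleGraph.cycleGraph t).IsContained (Gs χ) := by
  obtain ⟨LA, a1, a2, a3, a4, _⟩ := listA χ
  obtain ⟨LB, b1, b2, b3, b4⟩ := listB χ
  rw [card_quot_top h1] at a4
  rw [card_quot_top h2] at b4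
  have ca : LA.IsChain (Gs χ).Adj := chain_of_brk _ (by omega)
  have cb : LB.IsChain (Gs χ).Adj := chain_of_brk _ (by omega)
  have uA : ∀ (s : Bool) (z), z ∈ LA → (Gs χ).Adj (.inl s) z := by
    intro s z hz
    obtain ⟨x, rfl⟩ := a3 z hz
    exact (adj_01 χ s x).2 (hst _)
  have uB : ∀ (s : Bool) (z), z ∈ LB → (Gs χ).Adj (.inl s) z := by
    intro s z hz
    obtain ⟨x, rfl⟩ := b3 z hz
    exact (adj_02 χ s x).2 (hst _)
  have nA : ∀ (s : Bool) (z : VV A B), z ∈ LA → z ≠ .inl s := by
    intro s z hz
    obtain ⟨x, rfl⟩ := a3 z hz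
    simp
  have nB : ∀ (s : Bool) (z : VV A B), z ∈ LB → z ≠ .inl s := by
    intro s z hz
    obtain ⟨x, rfl⟩ := b3 z hz
    simp
  rcases Nat.lt_or_ge (Fintype.card A + 1) t with h | h
  · -- long
    set i := t - Fintype.card A - 2 with hi
    have hLA : LA ≠ [] := by
      rintro rfl
      simp at a2
      omega
    have hw := cyc_wrap (Gs χ) [.inl false] LA (.inl true :: LB.take i) a1 ?_ ?_ ca (by simp) ?_
      (List.head?_eq_some_head hLA) (List.getLast?_eq_getLast_of_ne_nil hLA) ?_ ?_
      (γ := .inl false) (δ := ((.inl true :: LB.take i).getLast (by simp))) ?_ ?_ ?_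
    · have hl : ([.inl false] : List (VV A B)).length + LA.length +
          ((.inl true : VV A B) :: LB.take i).length = t := by
        rw [List.length_singleton, a2, List.length_cons, List.length_take, b2]
        omega
      rwa [hl] at hw
    · rw [List.singleton_append, List.nodup_cons, List.nodup_cons]
      refine ⟨?_, ?_, b1.sublist (List.take_sublist _ _)⟩
      · rw [List.mem_cons]
        rintro (h3 | h3)
        · simp at h3
        · exact nB false _ (List.mem_of_mem_take h3) rfl
      · intro h3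
        exact nB true _ (List.mem_of_mem_take h3) rfl
    · intro z hz
      obtain ⟨x, rfl⟩ := a3 z hz
      refine ⟨by simp, ?_⟩
      rw [List.mem_cons]
      rintro (h3 | h3)
      · simp at h3
      · obtain ⟨y, hy⟩ := b3 _ (List.mem_of_mem_take h3)
        simp at hy
    · rw [List.isChain_cons]
      refine ⟨?_, cb.take i⟩
      intro z hz
      exact uB true z (List.mem_of_mem_take (List.mem_of_mem_head? hz))
    · intro z hz
      simp only [List.getLast?_singleton, Option.mem_some_iff] at hz
      rw [← hz]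
      exact uA false _ (List.head_mem hLA)
    · intro z hz
      simp only [List.head?_cons, Option.mem_some_iff] at hz
      rw [← hz]
      exact (uA true _ (List.getLast_mem hLA)).symm
    · rfl
    · rw [List.getLast?_append, List.getLast?_eq_getLast_of_ne_nil (List.cons_ne_nil _ _)]
      rfl
    · have hmem := List.getLast_mem (l := ((.inl true : VV A B) :: LB.take i)) (by simp)
      rw [List.mem_cons] at hmem
      rcases hmem with h3 | h3
      · rw [h3]
        exact (adj_00 χ true false).2 (by simp)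
      · exact (uB false _ (List.mem_of_mem_take h3)).symm
  · -- short
    have hlen : (LA.take (t - 1)).length = t - 1 := by
      rw [List.length_take, a2]
      omega
    have hne : LA.take (t - 1) ≠ [] := by
      intro h3
      rw [h3] at hlen
      simp at hlen
      omega
    have hw := cyc_wrap (Gs χ) [.inl false] (LA.take (t - 1)) []
      (a1.sublist (List.take_sublist _ _)) (by simp) ?_ (ca.take _) (by simp) (by simp)
      (List.head?_eq_some_head hne) (List.getLast?_eq_getLast_of_ne_nil hne) ?_ (by simp)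
      (γ := .inl false) (δ := ((LA.take (t - 1)).getLast hne)) ?_ ?_ ?_
    · have hl : ([.inl false] : List (VV A B)).length + (LA.take (t - 1)).length +
          ([] : List (VV A B)).length = t := by
        rw [List.length_singleton, hlen, List.length_nil]
        omega
      rwa [hl] at hw
    · intro z hz
      obtain ⟨x, rfl⟩ := a3 z (List.mem_of_mem_take hz)
      simp
    · intro z hz
      simp only [List.getLast?_singleton, Option.mem_some_iff] at hz
      rw [← hz]
      exact uA false _ (List.mem_of_mem_take (List.head_mem hne))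
    · rfl
    · simp
    · exact (uA false _ (List.mem_of_mem_take (List.getLast_mem hne))).symm

end

end Run7.h972.Ham
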