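import Pool.Agent.Run7.h972.Win

set_option autoImplicit false
set_option linter.unusedSectionVars false

/-!
# The pancyclic configurations with the two blocks joined
-/

namespace Run7.h972.Ham

open List
open Pool.Agent.TH669.KP (sgn bit GR GR_adj Stp)
open Pool.Agent.TH669.KC (Cl cls cls_zero cls_of_ne cls_ne_none cls_neg cls_inj cls_surj)
open Pool.Agent.TH669.KS (SS gn)

section

variable {A B : Type} [AddCommGroup A] [DecidableEq A] [AddCommGroup B] [DecidableEq B]
variable [Fintype A] [Fintype B]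

/-- both fixed points joined to the first block -/
theorem win11 (χ : JJ A B → Bool) (hj : χ (.inr (.inl ())) = true)
    (hst : ∀ s, χ (.inl (s, false)) = true)
    (hc : Nat.card (A ⧸ gn (k1 χ)) ≤ Fintype.card B + 2)
    (hab : Fintype.card B + 2 ≤ Fintype.card A) (t : ℕ) (ht3 : 3 ≤ t)
    (htn : t ≤ Fintype.card A + Fintype.card B + 2) :
    (SimpleGraph.cycleGraph t).IsContained (Gs χ) := by
  obtain ⟨LA, a1, a2, a3, a4, a5⟩ := listA χ
  obtain ⟨LB, b1, b2, b3, _⟩ := listB χ
  have uA : ∀ (s : Bool) (z), z ∈ LA → (Gs χ).Adj (.inl s) z := by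
    intro s z hz
    obtain ⟨x, rfl⟩ := a3 z hz
    exact (adj_01 χ s x).2 (hst _)
  have AB : ∀ x ∈ LA, ∀ y ∈ LB, (Gs χ).Adj x y := by
    intro x hx y hy
    obtain ⟨x, rfl⟩ := a3 x hx
    obtain ⟨y, rfl⟩ := b3 y hy
    exact (adj_12 χ x y).2 hj
  have nd0 : (LA ++ LB).Nodup := by
    rw [List.nodup_append]
    refine ⟨a1, b1, ?_⟩
    intro x hx y hy hxy
    obtain ⟨x, rfl⟩ := a3 x hx
    obtain ⟨y, rfl⟩ := b3 y hy
    simp at hxy
  have nd1 : (LA ++ (.inl true :: LB)).Nodup := by
    rw [List.nodup_append, List.nodup_cons]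
    refine ⟨a1, ⟨?_, b1⟩, ?_⟩
    · intro h
      obtain ⟨y, hy⟩ := b3 _ h
      simp at hy
    · intro x hx y hy hxy
      obtain ⟨x, rfl⟩ := a3 x hx
      rcases List.mem_cons.1 hy with rfl | hy
      · simp at hxy
      · obtain ⟨y, rfl⟩ := b3 y hy
        simp at hxy
  have AB1 : ∀ x ∈ LA, ∀ y ∈ ((.inl true : VV A B) :: LB), (Gs χ).Adj x y := by
    intro x hx y hy
    rcases List.mem_cons.1 hy with rfl | hy
    · exact (uA true x hx).symm
    · exact AB x hx y hy
  have notu : ∀ z, z ∈ LA ∨ z ∈ ((.inl true : VV A B) :: LB) → z ≠ .inl false := by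
    rintro z (hz | hz)
    · obtain ⟨x, rfl⟩ := a3 z hz
      simp
    · rcases List.mem_cons.1 hz with rfl | hz
      · simp
      · obtain ⟨y, rfl⟩ := b3 z hz
        simp
  -- the construction with the second fixed point as a separator
  have mk1 : (((t - 1) % 2 = 1 ∧ t - 1 ≤ 2 * ((.inl true : VV A B) :: LB).length + 1) ∨
      (brk (Gs χ).Adj LA ≤ ((.inl true : VV A B) :: LB).length ∧
        ∃ x y l, LA = x :: y :: l ∧ (Gs χ).Adj x y)) →
      (SimpleGraph.cycleGraph t).IsContained (Gs χ) := by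
    intro hor
    obtain ⟨M, m1, m2, m3, m4, ⟨α, hα, m5⟩, ⟨β, hβ, m6⟩⟩ := seg (Gs χ) LA (.inl true :: LB) nd1
      (by rw [List.length_cons, a2, b2]; omega) AB1 (t - 1) (by omega)
      (by rw [List.length_cons, a2, b2]; omega) hor
    have hw := cyc_wrap (Gs χ) [.inl false] M [] m1 (by simp)
      (fun z hz => ⟨by simpa using notu z (m3 z hz), by simp⟩) m4 (by simp) (by simp) m5 m6
      (by simpa using uA false α hα) (by simp) (γ := .inl false) (δ := β) rfl (by simp)
      (uA false β hβ).symm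
    have hl : ([.inl false] : List (VV A B)).length + M.length +
        ([] : List (VV A B)).length = t := by
      rw [List.length_singleton, m2, List.length_nil]
      omega
    rwa [hl] at hw
  by_cases hbot : gn (k1 χ) = ⊥
  · rw [card_quot_bot hbot] at hc a4
    rcases Nat.even_or_odd' t with ⟨k, hk | hk⟩
    · refine mk1 (Or.inl ⟨by omega, ?_⟩)
      rw [List.length_cons, b2]
      omega
    · -- the edge between the fixed points is used
      obtain ⟨M, m1, m2, m3, m4, ⟨α, hα, m5⟩, ⟨β, hβ, m6⟩⟩ := seg (Gs χ) LA LB nd0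
        (by rw [a2, b2]; omega) AB (t - 2) (by omega)
        (by rw [a2, b2]; omega) (Or.inl ⟨by omega, by rw [b2]; omega⟩)
      have hw := cyc_wrap (Gs χ) [.inl false] M [.inl true] m1 (by simp)
        (fun z hz => by
          rcases m3 z hz with h | h
          · obtain ⟨x, rfl⟩ := a3 z h
            simp
          · obtain ⟨x, rfl⟩ := b3 z h
            simp) m4 (by simp) (by simp) m5 m6
        (by simpa using uA false α hα) (by simpa using (uA true β hβ).symm)
        (γ := .inl false) (δ := .inl true) rfl (by simp)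
        ((adj_00 χ true false).2 (by simp))
      have hl : ([.inl false] : List (VV A B)).length + M.length +
          ([.inl true] : List (VV A B)).length = t := by
        rw [List.length_singleton, m2, List.length_singleton]
        omega
      rwa [hl] at hw
  · refine mk1 (Or.inr ⟨?_, a5 hbot⟩)
    rw [List.length_cons, b2]
    omega

/-- one fixed point joined to the first block, the other one to the second block -/
theorem win10 (χ : JJ A B → Bool) (hj : χ (.inr (.inl ())) = true) (s : Bool)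
    (h1 : χ (.inl (s, false)) = true) (h2 : χ (.inl (!s, true)) = true)
    (hc : Nat.card (A ⧸ gn (k1 χ)) ≤ Fintype.card B)
    (hab : Fintype.card B + 2 ≤ Fintype.card A) (t : ℕ) (ht3 : 3 ≤ t)
    (htn : t ≤ Fintype.card A + Fintype.card B + 2) :
    (SimpleGraph.cycleGraph t).IsContained (Gs χ) := by
  obtain ⟨LA, a1, a2, a3, a4, a5⟩ := listA χ
  obtain ⟨LB, b1, b2, b3, _⟩ := listB χ
  have hss : s ≠ !s := by cases s <;> simp
  have uA : ∀ z, z ∈ LA → (Gs χ).Adj (.inl s) z := by
    intro z hz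
    obtain ⟨x, rfl⟩ := a3 z hz
    exact (adj_01 χ s x).2 h1
  have vB : ∀ z, z ∈ LB → (Gs χ).Adj (.inl (!s)) z := by
    intro z hz
    obtain ⟨x, rfl⟩ := b3 z hz
    exact (adj_02 χ (!s) x).2 h2
  have AB : ∀ x ∈ LA, ∀ y ∈ LB, (Gs χ).Adj x y := by
    intro x hx y hy
    obtain ⟨x, rfl⟩ := a3 x hx
    obtain ⟨y, rfl⟩ := b3 y hy
    exact (adj_12 χ x y).2 hj
  have hbot : gn (k1 χ) ≠ ⊥ := by
    intro h
    rw [card_quot_bot h] at hc
    omega
  have hc1 : 0 < Nat.card (A ⧸ gn (k1 χ)) := Nat.card_pos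
  obtain ⟨x, y, l, hL, hxy⟩ := a5 hbot
  rcases Nat.lt_or_ge 3 t with ht | ht
  · have hLB : LB ≠ [] := by
      rintro rfl
      simp at b2
      omega
    obtain ⟨b, LB', rfl⟩ := List.exists_cons_of_ne_nil hLB
    rw [List.length_cons] at b2
    rw [List.nodup_cons] at b1
    have nd0 : (LA ++ LB').Nodup := by
      rw [List.nodup_append]
      refine ⟨a1, b1.2, ?_⟩
      intro x hx y hy hxy
      obtain ⟨x, rfl⟩ := a3 x hx
      obtain ⟨y, rfl⟩ := b3 y (List.mem_cons_of_mem _ hy)
      simp at hxy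
    obtain ⟨M, m1, m2, m3, m4, ⟨α, hα, m5⟩, ⟨β, hβ, m6⟩⟩ := seg (Gs χ) LA LB' nd0
      (by rw [a2]; omega) (fun x hx y hy => AB x hx y (List.mem_cons_of_mem _ hy)) (t - 3)
      (by omega) (by rw [a2]; omega) (Or.inr ⟨by omega, x, y, l, hL, hxy⟩)
    obtain ⟨b', hb'⟩ := b3 b List.mem_cons_self
    have hw := cyc_wrap (Gs χ) [.inl (!s), .inl s] M [b] m1 (by simp [hb', hss.symm])
      (fun z hz => by
        rcases m3 z hz with h | h
        · obtain ⟨x, rfl⟩ := a3 z h
          simp [hb']
        · obtain ⟨x, rfl⟩ := b3 z (List.mem_cons_of_mem _ h)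
          refine ⟨by simp, ?_⟩
          rw [List.mem_singleton]
          rintro rfl
          exact b1.1 h) m4 (by simpa using (adj_00 χ (!s) s).2 hss.symm) (by simp) m5 m6
      (by simpa using uA α hα) (by simpa using AB β hβ b List.mem_cons_self)
      (γ := .inl (!s)) (δ := b) rfl (by simp)
      (vB b List.mem_cons_self).symm
    have hl : ([.inl (!s), .inl s] : List (VV A B)).length + M.length + [b].length = t := by
      rw [List.length_singleton, m2, List.length_cons, List.length_singleton]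
      omega
    rwa [hl] at hw
  · have ht' : t = 3 := by omega
    subst ht'
    have hx : x ∈ LA := by rw [hL]; simp
    have hy : y ∈ LA := by rw [hL]; simp
    have hxy' : x ≠ y := hxy.ne
    obtain ⟨x', hx'⟩ := a3 x hx
    obtain ⟨y', hy'⟩ := a3 y hy
    exact cyc_of_list (Gs χ) [.inl s, x, y] (by simp [hx', hy'] ; rintro rfl; exact hxy' (by rw [hx', hy']))
      (by simp [hxy, uA x hx]) rfl rfl (uA y hy).symm

/-- no fixed point joined to the first block -/
theorem win00 (χ : JJ A B → Bool) (hj : χ (.inr (.inl ())) = true)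
    (hst : ∀ s, χ (.inl (s, true)) = true)
    (hc : Nat.card (A ⧸ gn (k1 χ)) + 1 ≤ Fintype.card B)
    (hab : Fintype.card B + 2 ≤ Fintype.card A) (t : ℕ) (ht3 : 3 ≤ t)
    (htn : t ≤ Fintype.card A + Fintype.card B + 2) :
    (SimpleGraph.cycleGraph t).IsContained (Gs χ) := by
  obtain ⟨LA, a1, a2, a3, a4, a5⟩ := listA χ
  obtain ⟨LB, b1, b2, b3, _⟩ := listB χ
  have uB : ∀ s z, z ∈ LB → (Gs χ).Adj (.inl s) z := by
    intro s z hz
    obtain ⟨x, rfl⟩ := b3 z hz
    exact (adj_02 χ s x).2 (hst s)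
  have AB : ∀ x ∈ LA, ∀ y ∈ LB, (Gs χ).Adj x y := by
    intro x hx y hy
    obtain ⟨x, rfl⟩ := a3 x hx
    obtain ⟨y, rfl⟩ := b3 y hy
    exact (adj_12 χ x y).2 hj
  have hbot : gn (k1 χ) ≠ ⊥ := by
    intro h
    rw [card_quot_bot h] at hc
    omega
  have hc1 : 0 < Nat.card (A ⧸ gn (k1 χ)) := Nat.card_pos
  obtain ⟨x, y, l, hL, hxy⟩ := a5 hbot
  have hx : x ∈ LA := by rw [hL]; simp
  have hy : y ∈ LA := by rw [hL]; simp
  have hxy' : x ≠ y := hxy.ne
  obtain ⟨b, b', LB', rfl⟩ : ∃ b b' LB', LB = b :: b' :: LB' := by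
    rcases LB with _ | ⟨b, _ | ⟨b', LB'⟩⟩
    · simp at b2
      omega
    · simp at b2
      omega
    · exact ⟨_, _, _, rfl⟩
  rw [List.length_cons, List.length_cons] at b2
  rw [List.nodup_cons, List.nodup_cons] at b1
  have hbm : b ∈ b :: b' :: LB' := List.mem_cons_self
  have hbm' : b' ∈ b :: b' :: LB' := List.mem_cons_of_mem _ List.mem_cons_self
  have hbb : b ≠ b' := by
    rintro rfl
    exact b1.1 List.mem_cons_self
  obtain ⟨c, hcb⟩ := b3 b hbm
  obtain ⟨c', hcb'⟩ := b3 b' hbm'
  rcases Nat.lt_or_ge 4 t with ht | ht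
  · have nd0 : (LA ++ LB').Nodup := by
      rw [List.nodup_append]
      refine ⟨a1, b1.2.2, ?_⟩
      intro x hx y hy hxy
      obtain ⟨x, rfl⟩ := a3 x hx
      obtain ⟨y, rfl⟩ := b3 y (List.mem_cons_of_mem _ (List.mem_cons_of_mem _ hy))
      simp at hxy
    obtain ⟨M, m1, m2, m3, m4, ⟨α, hα, m5⟩, ⟨β, hβ, m6⟩⟩ := seg (Gs χ) LA LB' nd0
      (by rw [a2]; omega)
      (fun x hx y hy => AB x hx y (List.mem_cons_of_mem _ (List.mem_cons_of_mem _ hy))) (t - 4)
      (by omega) (by rw [a2]; omega) (Or.inr ⟨by omega, x, y, l, hL, hxy⟩)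
    have hw := cyc_wrap (Gs χ) [.inl false, .inl true, b] M [b'] m1
      (by
        rw [hcb, hcb'] at hbb ⊢
        simpa using hbb)
      (fun z hz => by
        rcases m3 z hz with h | h
        · obtain ⟨x, rfl⟩ := a3 z h
          simp [hcb, hcb']
        · obtain ⟨x, rfl⟩ := b3 z (List.mem_cons_of_mem _ (List.mem_cons_of_mem _ h))
          refine ⟨?_, ?_⟩
          · simp only [List.mem_cons, List.not_mem_nil, or_false]
            rintro (h3 | h3 | h3)
            · simp at h3
            · simp at h3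
            · apply b1.1
              rw [← h3]
              exact List.mem_cons_of_mem _ h
          · rw [List.mem_singleton]
            intro h3
            apply b1.2.1
            rw [← h3]
            exact h) m4
      (by simpa using ⟨(adj_00 χ false true).2 (by simp), uB true b hbm⟩) (by simp) m5 m6
      (by simpa using (AB α hα b hbm).symm) (by simpa using AB β hβ b' hbm')
      (γ := .inl false) (δ := b') rfl (by simp)
      (uB false b' hbm').symm
    have hl : ([.inl false, .inl true, b] : List (VV A B)).length + M.length + [b'].length = t := by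
      rw [List.length_singleton, m2, List.length_cons, List.length_cons, List.length_singleton]
      omega
    rwa [hl] at hw
  · have ht' : t = 3 ∨ t = 4 := by omega
    rcases ht' with rfl | rfl
    · exact cyc_of_list (Gs χ) [.inl false, .inl true, b] (by simp [hcb])
        (by simpa using ⟨(adj_00 χ false true).2 (by simp), uB true b hbm⟩) rfl rfl
        (uB false b hbm).symm
    · obtain ⟨x', hx'⟩ := a3 x hx
      obtain ⟨y', hy'⟩ := a3 y hy
      refine cyc_of_list (Gs χ) [b, x, b', y] ?_ ?_ rfl rfl (AB y hy b hbm)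
      · rw [hcb, hcb'] at hbb
        rw [hx', hy'] at hxy'
        rw [hcb, hcb', hx', hy']
        simpa using ⟨by simpa using hbb, by simpa using hxy'⟩
      · simpa using ⟨(AB x hx b hbm).symm, AB x hx b' hbm', (AB y hy b' hbm').symm⟩

end

end Run7.h972.Ham
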